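import Pool.Agent.Q45.NE.DensC
import Pool.Agent.Q45.NE.Up
import Pool.Agent.Q45.NE.Dt
import Pool.Agent.Q45.NE.SolvE
import Pool.Agent.Q45.NE.J.Solv
import Pool.Agent.Y160.SL.Conv

/-!
# The Tate conjecture over many extensions of the base field at once

Let `k` be a field of characteristic different from two, and let `F(t, w)` be a polynomial over `k`, monic
in `w`. For a polynomial `G(t)` let `S` be the surface

`Y ^ 2 = (w - G(t)) F(t, w)`,

the double covering of the plane branched along the curve `C : F = 0` and the section `w = G(t)`, which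
meet over the zeros of the polynomial `e(t) = F(t, G(t))`. Let `J` be the Jacobian of the generic fibre of
`S` over the `t`-line.

Criterion. Suppose that `e` is irreducible and separable of degree at least three, that it does not divide
the discriminant of `F`, and that the Galois group of `k` acts doubly transitively on the roots of `e`. Let
`k''` be a field which contains `k` and satisfies one of the following two conditions on the algebraic
closure `k₁` of `k` in `k''`:

* the degree of `k₁` over `k` is smaller than the degree of `e`, or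
* `k₁` is contained in a Galois extension of `k` which does not contain the splitting field of `e`.

If `C` is a branch curve over `k''` (it is geometrically irreducible and smooth, the units of its
coordinate ring are constants, there is no ideal class of order two, and the degree `n` of `F` in `w` is
odd), then the Tate conjecture for divisors at `2` holds for `S` over `k''`, the `2`-primary part of the
Tate-Shafarevich group of `J` over `k''(t)` is zero, and one explicit point `D`, defined over `k(t)`,
generates `J(k''(t))` at `2`. The Galois extensions of `k` which contain the splitting field of `e` are not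
abelian, and they are not solvable if the degree of `e` is not a power of a prime number.

Let now `k` be a number field, `F` geometrically irreducible of degree `n ≥ 3` in `w`, and let `G` be a
polynomial of degree `d ≥ 2` which is large compared to `F`: `deg F_i < (n - i) d` for the coefficients
`F_i(t)` of `w ^ i` in `F`, `i < n`. Then the conditions of the criterion are satisfied for the sections
`w = G(t) + v₁ t + v₀`, for `100%` of the pairs `(v₀, v₁)` of integers, and the degree of `e` is `n d`.

In particular, for one surface `S` over the number field `k` the Tate conjecture holds at the same time over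
all the extensions of `k` of degree smaller than `n d`, over all the abelian extensions of `k`, including
the maximal one, and over all the function fields of geometrically irreducible varieties over these fields.

For `F = a(w) + t`, where `a` is a monic polynomial of odd degree `n ≥ 3`, the curve `C` is an affine line
and it is a branch curve over all the fields `k''`. For `n = 3` the smooth projective models are
elliptic surfaces over the projective line with a section, which are simply connected, of geometric genus
the integral part of `d / 2`.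
-/

set_option autoImplicit false
set_option linter.all false

open Polynomial IsDedekindDomain Filter Topology
open scoped Classical

namespace Pool.Agent.Results.MP_89bcae_ag.AllExtensionsAtOnce

open Pool.Agent.Y160.SL
open Pool.Agent.TH115.GD (incl Sep Comp)

/-- The partial derivative of `F(t, w)` with respect to `t`: the derivative is applied to the
coefficients. -/
noncomputable def derivT {k : Type} [Field k] (F : k[X][X]) : k[X][X] :=
  F.sum fun i a => C (derivative a) * X ^ i

/-- The affine curve `F(t, w) = 0` is smooth. -/
def IsSmooth {k : Type} [Field k] (F : k[X][X]) : Prop :=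
  ∃ a b c : k[X][X], a * F + b * derivative F + c * derivT F = 1

/-- The polynomial `F` is irreducible over all extensions of `k`. -/
def IsGeomIrreducible {k : Type} [Field k] (F : k[X][X]) : Prop :=
  ∀ (k' : Type) [Field k'] [Algebra k k'], Irreducible (F.map (mapRingHom (algebraMap k k')))

/-- The units of the coordinate ring `k[t, w] / (F)` of the curve `F(t, w) = 0` are constants. -/
def UnitsAreConstants {k : Type} [Field k] (F : k[X][X]) : Prop :=
  ∀ u : (AdjoinRoot F)ˣ, ∃ c : k, (u : AdjoinRoot F) = AdjoinRoot.of F (C c)

/-- The coordinate ring has no ideal class of order two: if `J ^ 2` is principal then so is `J`. -/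
def NoClassOfOrderTwo {k : Type} [Field k] (F : k[X][X]) : Prop :=
  ∀ J : Ideal (AdjoinRoot F), (J ^ 2).IsPrincipal → J.IsPrincipal

/-- The conditions on the curve `F(t, w) = 0`. -/
structure IsBranchCurve {k : Type} [Field k] (F : k[X][X]) : Prop where
  monic : F.Monic
  odd : Odd F.natDegree
  three_le : 3 ≤ F.natDegree
  irreducible : IsGeomIrreducible F
  deriv_ne : derivative F ≠ 0
  smooth : IsSmooth F
  dedekind : IsDedekindDomain (AdjoinRoot F)
  units : UnitsAreConstants F
  noTorsion : NoClassOfOrderTwo F

/-- The polynomial `e(t) = F(t, G(t))`. -/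
noncomputable def valueAt {k : Type} [Field k] (F : k[X][X]) (G : k[X]) : k[X] := F.eval G

/-- The polynomial `x ^ n + a₁ x ^ (n - 1) + a₂ e x ^ (n - 2) + ⋯ + a_n e ^ (n - 1)`, where `e = F(t, G)`
and `F(t, G + T) = e + a₁ T + a₂ T ^ 2 + ⋯ + a_n T ^ n`. -/
noncomputable def oddModel {k : Type} [Field k] (F : k[X][X]) (G : k[X]) : k[X][X] :=
  X ^ F.natDegree + ∑ i ∈ Finset.range F.natDegree,
    C ((taylor G F).coeff (i + 1) * valueAt F G ^ i) * X ^ (F.natDegree - 1 - i)

/-- The field `F` is the extension `k' K` of `K` by the constants `k'`. -/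
structure IsConstantExtension (k k' K F : Type) [Field k] [Field k'] [Algebra k k'] [Field K]
    [Algebra k[X] K] [Field F] [Algebra k'[X] F] [Algebra K F] : Prop where
  inj : Function.Injective (algebraMap k'[X] F)
  comp : ∀ p : k[X], algebraMap K F (algebraMap k[X] K p) =
    algebraMap k'[X] F (p.map (algebraMap k k'))
  gen : IntermediateField.adjoin K (Set.range ((algebraMap k'[X] F).comp C)) = ⊤

/-- The restriction of the cochain `c` to the completion of `F` at every maximal ideal of the Dedekind
domain `B` with field of fractions `F` is a coboundary. -/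
def IsSelmer {K F : Type} [Field K] [Field F] [Algebra K F] (B : Type) [CommRing B]
    [IsDedekindDomain B] [Algebra B F] [IsFractionRing B F] (f : K[X])
    (c : (Sep F ≃ₐ[F] Sep F) → Jac 2 f (Sep F)) : Prop :=
  ∀ v : HeightOneSpectrum B, LocTriv 2 f (Comp B F v) (Sep (Comp B F v)) c

/-- The class of `c`, with values in `T_2 J`, comes from `J(K)`: for every `n` there are `P` in `J(K)`
and `R` in `J(Sep F)` with `2 ^ n R = P` and `c n σ = σ R - R` for all `σ`. -/
def ComesFromK {K F : Type} [Field K] [Field F] [Algebra K F] (f : K[X])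
    (c : ℕ → (Sep F ≃ₐ[F] Sep F) → Jac 2 f (Sep F)) : Prop :=
  ∀ n, ∃ (P : Jac 2 f K) (R : Jac 2 f (Sep F)), 2 ^ n • R = jm 2 f (incl K K (Sep F)) P ∧
    IsCobOf 2 f (c n) R

/-- If `c` is a cocycle of `Gal(Sep F / F)` with values in `T_2 J` which is locally trivial at the
maximal ideals of `B`, and the class of `c` in `H ^ 1 (F, V_2 J)` is fixed by the Galois group of `K`,
then the class of `c` comes from `J(K)`. -/
def TateAt {K F : Type} [Field K] [Field F] [Algebra K F] (B : Type) [CommRing B]
    [IsDedekindDomain B] [Algebra B F] [IsFractionRing B F] (f : K[X]) : Prop :=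
  ∀ c : ℕ → (Sep F ≃ₐ[F] Sep F) → Jac 2 f (Sep F), IsTC 2 2 f c →
    (∀ n, IsSelmer B f (c n)) → IsInv 2 2 f c → ComesFromK f c

/-- The Tate conjecture at `2` for the surface with generic fibre `y ^ 2 = f(x)` over `K`, for every
Galois extension `k'` of `k` (for example `k` or the separable closure of `k`), `F = k' K` and `B` the
integral closure of `k'[t]` in `F`: only the places of `F` over the affine `t`-line are used. -/
def TateConj (k : Type) {K : Type} [Field k] [Field K] [Algebra k[X] K] (f : K[X]) : Prop :=
  ∀ (k' F B : Type) [Field k'] [Algebra k k'] [IsGalois k k'] [Field F] [Algebra k'[X] F]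
    [Algebra K F] [CommRing B] [IsDedekindDomain B] [Algebra B F] [IsFractionRing B F]
    [Algebra k'[X] B] [IsScalarTower k'[X] B F] [IsIntegralClosure B k'[X] F],
    IsConstantExtension k k' K F → TateAt (F := F) B f

/-- The ideal of the divisor `u(x) = 0`, `y = v(x)` in the coordinate ring of the affine curve
`y ^ 2 = f(x)`. -/
noncomputable def divIdeal {K : Type} [Field K] (f u v : K[X]) : Ideal (CoordRing 2 f) :=
  Ideal.span {ofPoly 2 f u, wfun 2 f - ofPoly 2 f v}

/-- The ideal `I` of `R` is an invertible module, and `P` is its class in the Picard group. -/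
def IsIdealClass {R : Type} [CommRing R] (P : Additive (CommRing.Pic R)) (I : Ideal R) : Prop :=
  ∃ _ : Module.Invertible R I, P = Additive.ofMul (CommRing.Pic.mk R I)

/-- The element `P` of `J(K) = Pic(K[x, y] / (y ^ 2 - f(x)))` is the class of the ideal of the divisor
`u(x) = 0`, `y = v(x)`. -/
def IsDivisor {K : Type} [Field K] (f u v : K[X]) (P : Jac 2 f K) : Prop :=
  IsIdealClass (R := CoordRing 2 (f.map (algebraMap K K))) P
    (divIdeal (f.map (algebraMap K K)) u v)

/-- The element `D` of `M` has infinite order, and it generates `M` modulo `2 ^ N` for all `N`. -/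
def IsGeneratorAtTwo {M : Type} [AddCommGroup M] (D : M) : Prop :=
  (∀ m : ℤ, m • D = 0 → m = 0) ∧ ∀ (N : ℕ) (x : M), ∃ (y : M) (m : ℤ), x - 2 ^ N • y = m • D

/-- The conclusions for the surface `Y ^ 2 = (w - G(t)) F(t, w)`: the Tate conjecture at `2`, the
triviality of the `2`-primary part of the Tate-Shafarevich group (even with respect to the places of the
affine `t`-line only), and the point `x = 0`, `y = e ^ ((n - 1) / 2)` generates `J(K)` at `2`. -/
def Concl {k : Type} [Field k] (F : k[X][X]) (G : k[X]) : Prop :=
  ∀ (K : Type) [Field K] [Algebra k[X] K] [IsFractionRing k[X] K],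
    TateConj k ((oddModel F G).map (algebraMap k[X] K)) ∧
    ShaTriv 2 2 k[X] ((oddModel F G).map (algebraMap k[X] K)) ∧
    ∃ D : Jac 2 ((oddModel F G).map (algebraMap k[X] K)) K, IsGeneratorAtTwo D ∧
      IsDivisor ((oddModel F G).map (algebraMap k[X] K)) X
        (C (algebraMap k[X] K (valueAt F G ^ ((F.natDegree - 1) / 2)))) D

/-- The degree of `G` is large compared to `F`. -/
def IsLarge {k : Type} [Field k] (F : k[X][X]) (G : k[X]) : Prop :=
  ∀ i < F.natDegree, (F.coeff i).natDegree < (F.natDegree - i) * G.natDegree

/-- The polynomial `F` over the extension `k''` of `k`. -/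
noncomputable def extendPoly {k : Type} [Field k] (k'' : Type) [Field k''] [Algebra k k'']
    (F : k[X][X]) : k''[X][X] := F.map (mapRingHom (algebraMap k k''))

/-- The condition on the field `k''` which contains `k`: the algebraic closure `k₁` of `k` in `k''` has
degree smaller than `N` over `k`, or it is contained in a Galois extension `E` of `k` over which the
polynomial `e` does not split into linear factors. -/
def IsAllowed {k : Type} [Field k] (e : k[X]) (N : ℕ) (k'' : Type) [Field k''] [Algebra k k''] : Prop :=
  (FiniteDimensional k (algebraicClosure k k'') ∧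
    Module.finrank k (algebraicClosure k k'') < N) ∨
  ∃ (E : Type) (_ : Field E) (_ : Algebra k E) (_ : algebraicClosure k k'' →ₐ[k] E), IsGalois k E ∧
    ¬ (e.map (algebraMap k E)).Splits

/-- The extension `E` of `k` is Galois with an abelian Galois group. -/
def IsAbelianExtension (k E : Type) [Field k] [Field E] [Algebra k E] : Prop :=
  IsGalois k E ∧ ∀ σ τ : E ≃ₐ[k] E, σ * τ = τ * σ

/-- The extension `E` of `k` is Galois, and the Galois groups of the finite Galois extensions of `k` in
`E` are solvable. -/
def IsSolvableExtension (k E : Type) [Field k] [Field E] [Algebra k E] : Prop :=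
  IsGalois k E ∧ ∀ L : IntermediateField k E, FiniteDimensional k L → IsGalois k L →
    IsSolvable (L ≃ₐ[k] L)

/-- The conclusions hold for the surface `Y ^ 2 = (w - G(t)) F(t, w)` over all the fields `k''` which contain
`k` such that the algebraic closure of `k` in `k''` has degree smaller than the degree of `e = F(t, G(t))`,
or is contained in a Galois extension of `k` which does not contain the splitting field of `e`; here
`C : F = 0` is supposed to be a branch curve over `k''`. The splitting field of `e` is not contained in an
abelian extension of `k`, and not in a solvable extension if the degree of `e` is not a power of a prime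
number. -/
def HoldsEverywhere {k : Type} [Field k] (F : k[X][X]) (G : k[X]) : Prop :=
  (∀ (k'' : Type) [Field k''] [Algebra k k''],
    IsAllowed (valueAt F G) (valueAt F G).natDegree k'' → IsBranchCurve (extendPoly k'' F) →
      Concl (extendPoly k'' F) (G.map (algebraMap k k''))) ∧
  (∀ (E : Type) [Field E] [Algebra k E], IsAbelianExtension k E ∨
      (IsSolvableExtension k E ∧ ¬ IsPrimePow (valueAt F G).natDegree) →
    ¬ ((valueAt F G).map (algebraMap k E)).Splits)

/-- The Galois group of `k` acts doubly transitively on the roots of `e` in the separable closure. -/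
def IsDoublyTransitive {k : Type} [Field k] (e : k[X]) : Prop :=
  ∀ a b c d : SeparableClosure k, aeval a e = 0 → aeval b e = 0 → a ≠ b → aeval c e = 0 →
    aeval d e = 0 → c ≠ d → ∃ σ : SeparableClosure k ≃ₐ[k] SeparableClosure k, σ a = c ∧ σ b = d

/-- The conditions on the section `w = G(t)`, in terms of the polynomial `e = F(t, G(t))`. -/
structure IsGoodSection {k : Type} [Field k] (F : k[X][X]) (G : k[X]) : Prop where
  irreducible : Irreducible (valueAt F G)
  separable : (valueAt F G).Separable
  three_le : 3 ≤ (valueAt F G).natDegree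
  not_dvd : ¬ valueAt F G ∣ F.discr
  doublyTransitive : IsDoublyTransitive (valueAt F G)

/-- The criterion. -/
def Criterion : Prop :=
  ∀ (k : Type) [Field k] (F : k[X][X]) (G : k[X]), (2 : k) ≠ 0 → F.Monic → 0 < F.natDegree →
    IsGoodSection F G → HoldsEverywhere F G

/-- The section `G(t) + v₁ t + v₀`. -/
noncomputable def section2 {k : Type} [Field k] (G : k[X]) (v : Fin 2 → ℤ) : k[X] :=
  G + C ((v 1 : ℤ) : k) * X + C ((v 0 : ℤ) : k)

/-- Over number fields the conditions of the criterion are satisfied, and the degree of `e` is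
`deg_w F · deg G`, except for a set of pairs `(v₀, v₁)` of density zero. -/
def Generic : Prop :=
  ∀ (k : Type) [Field k] [NumberField k] (F : k[X][X]) (G : k[X]), F.Monic → 3 ≤ F.natDegree →
    IsGeomIrreducible F → 2 ≤ G.natDegree → IsLarge F G →
    Tendsto (fun H : ℕ => (({v : Fin 2 → ℤ | (∀ i, |v i| ≤ (H : ℤ)) ∧
        ¬ ((valueAt F (section2 G v)).natDegree = F.natDegree * G.natDegree ∧
          IsGoodSection F (section2 G v))}.ncard : ℕ) : ℝ) / (2 * (H : ℝ) + 1) ^ 2) atTop (𝓝 0)

/-- The curves `a(w) + t = 0` satisfy the conditions over all the extensions. -/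
def Lines : Prop :=
  ∀ (k : Type) [Field k] [CharZero k] (a : k[X]), a.Monic → Odd a.natDegree → 3 ≤ a.natDegree →
    IsGeomIrreducible (a.map C + C X) ∧ (∀ G : k[X], 0 < G.natDegree → IsLarge (a.map C + C X) G) ∧
      ∀ (k'' : Type) [Field k''] [Algebra k k''], IsBranchCurve (extendPoly k'' (a.map C + C X))

theorem tate_of {K F : Type} [Field K] [Field F] [Algebra K F] {B : Type} [CommRing B]
    [IsDedekindDomain B] [Algebra B F] [IsFractionRing B F] {f : K[X]}
    (h : Pool.Agent.Q45.GP.TateOver (F := F) 2 2 B f) : TateAt (F := F) B f := by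
  intro c hc hl hi n
  exact h c ⟨fun n => ⟨(hc.coc n).lc, (hc.coc n).mul⟩, hc.zero, hc.step⟩ hl
    (fun τ => by
      obtain ⟨m, Q, hQ, hm⟩ := hi τ
      exact ⟨m, Q, ⟨hQ.zero, hQ.step⟩, hm⟩) n

theorem irr_self {k : Type} [Field k] {F : k[X][X]} (h : IsGeomIrreducible F) : Irreducible F := by
  have h1 := h k
  have h3 : mapRingHom (algebraMap k k) = RingHom.id k[X] := by
    rw [Algebra.algebraMap_self, mapRingHom_id]
  rwa [h3, Polynomial.map_id] at h1

theorem gen_of {M : Type} [AddCommGroup M] {D : M}
    (h : Pool.Agent.Y160.SL.IsBasisAt 2 (fun _ : Fin 1 => D)) : IsGeneratorAtTwo D := by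
  obtain ⟨h1, h2⟩ := h
  refine ⟨fun m hm => ?_, fun N x => ?_⟩
  · have h3 := Fintype.linearIndependent_iff.1 h1 (fun _ => m) (by
      rw [Finset.sum_const, Finset.card_univ, Fintype.card_fin, one_smul]
      exact hm)
    exact h3 0
  · obtain ⟨y, hy⟩ := h2 N x
    have h3 : Set.range (fun _ : Fin 1 => D) = {D} := Set.range_const
    rw [h3, AddSubgroup.mem_closure_singleton] at hy
    obtain ⟨m, hm⟩ := hy
    exact ⟨y, m, hm.symm⟩

/-- The conclusions over one field. -/
theorem concl_of {k : Type} [Field k] (h2 : (2 : k) ≠ 0) {F : k[X][X]} {G : k[X]}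
    (hF : IsBranchCurve F) (he : Irreducible (valueAt F G)) (hs : (valueAt F G).Separable)
    (hu : IsCoprime (AdjoinRoot.of F (valueAt F G)) (AdjoinRoot.mk F (derivative F))) :
    Concl F G := by
  intro K _ _ _
  obtain ⟨c, hc⟩ := Pool.Agent.Q45.NE.exists_cof F G
  have hdat : Pool.Agent.Q45.NE.Dat F G c := ⟨h2, hF.monic, hF.odd, by have := hF.three_le; omega,
    irr_self hF.irreducible, hF.deriv_ne, hF.smooth, ⟨hF.dedekind, hF.units, hF.noTorsion⟩, hc, he, hs,
    hu⟩
  have hmod : oddModel F G = Pool.Agent.Q45.NE.model F G := rfl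
  obtain ⟨h1, h3⟩ := Pool.Agent.Q45.NE.sha_ne hdat (K := K) inferInstance
  refine ⟨?_, shaTriv_of h1, _, gen_of h3, Pool.Agent.Q45.NE.mk_cls hdat inferInstance⟩
  intro k' E B _ _ _ _ _ _ _ _ _ _ _ _ _ hE
  exact tate_of (Pool.Agent.Q45.NE.tate_ne (k' := k') (A' := B) hdat (hF.irreducible k') inferInstance
    ⟨hE.inj, hE.comp, hE.gen⟩)

/-- The value over an extension. -/
theorem valueAt_map {k k'' : Type} [Field k] [Field k''] [Algebra k k''] (F : k[X][X]) (G : k[X]) :
    valueAt (extendPoly k'' F) (G.map (algebraMap k k'')) =
      (valueAt F G).map (algebraMap k k'') := by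
  unfold valueAt extendPoly
  have h1 : G.map (algebraMap k k'') = mapRingHom (algebraMap k k'') G := rfl
  rw [h1, eval_map, eval₂_at_apply]
  rfl

/-- The conditions are enough. -/
theorem holds_of {k : Type} [Field k] (h2 : (2 : k) ≠ 0) {F : k[X][X]} {G : k[X]} (hF : F.Monic)
    (hn : 0 < F.natDegree) (hg : IsGoodSection F G) : HoldsEverywhere F G := by
  have hirr' : Irreducible (valueAt F G) := hg.irreducible
  have hlc : (valueAt F G).leadingCoeff ≠ 0 := leadingCoeff_ne_zero.2 hirr'.ne_zero
  set u : k := (valueAt F G).leadingCoeff⁻¹ with hudef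
  have hu : u ≠ 0 := inv_ne_zero hlc
  have hun : IsUnit (C u : k[X]) := (isUnit_iff_ne_zero.2 hu).map C
  have hm : (C u * valueAt F G).Monic := by
    show (C u * valueAt F G).leadingCoeff = 1
    rw [leadingCoeff_mul, leadingCoeff_C, hudef, inv_mul_cancel₀ hlc]
  have hd : (C u * valueAt F G).natDegree = (valueAt F G).natDegree := natDegree_C_mul hu
  have hirr : Irreducible (C u * valueAt F G) := (irreducible_isUnit_mul hun).2 hirr'
  have hsep : (C u * valueAt F G).Separable := by
    obtain ⟨a, b, hab⟩ := hg.separable
    refine ⟨a * C u⁻¹, b * C u⁻¹, ?_⟩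
    have h1 : (C u⁻¹ * C u : k[X]) = 1 := by rw [← C_mul, inv_mul_cancel₀ hu, C_1]
    rw [derivative_C_mul]
    calc a * C u⁻¹ * (C u * valueAt F G) + b * C u⁻¹ * (C u * derivative (valueAt F G))
        = (C u⁻¹ * C u) * (a * valueAt F G + b * derivative (valueAt F G)) := by ring
      _ = 1 := by rw [h1, hab, one_mul]
  have hN := hg.three_le
  have hdt : Pool.Agent.Q45.NE.DT (C u * valueAt F G) := by
    have h1 : ∀ x : SeparableClosure k, aeval x (C u * valueAt F G) = 0 → aeval x (valueAt F G) = 0 := by
      intro x hx
      rw [map_mul, aeval_C] at hx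
      rcases mul_eq_zero.1 hx with h | h
      · exact absurd h ((_root_.map_ne_zero _).2 hu)
      · exact h
    intro a b c d ha hb hab hc hd' hcd
    exact hg.doublyTransitive a b c d (h1 a ha) (h1 b hb) hab (h1 c hc) (h1 d hd') hcd
  have hdom := Pool.Agent.Q45.NE.dom_of_dt hm hirr hsep (by rw [hd]; omega) hdt
  have hunr := Pool.Agent.Q45.NE.unr_of_discr hF hn hirr' hg.not_dvd
  refine ⟨?_, ?_⟩
  · intro k'' _ _ hall hB
    have h2' : (2 : k'') ≠ 0 := by
      have h1 := (_root_.map_ne_zero (algebraMap k k'')).2 h2
      rwa [map_ofNat] at h1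
    -- the polynomial is irreducible over `k''`
    have hmap : Irreducible ((C u * valueAt F G).map (algebraMap k k'')) := by
      refine Pool.Agent.Q45.NE.irr_up hm ?_
      rcases hall with ⟨hfd, hlt⟩ | ⟨E, _, _, φ, hgal, hspl⟩
      · haveI := hfd
        exact Pool.Agent.Q45.NE.small hm hirr hsep hdom (by rw [hd]; exact hlt)
      · haveI := hgal
        have h1 : Irreducible ((C u * valueAt F G).map (algebraMap k E)) := by
          refine Pool.Agent.Q45.NE.gal k (C u * valueAt F G) hm hirr hsep hdom E ?_
          intro hcon
          apply hspl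
          rw [Polynomial.map_mul, map_C] at hcon
          have hu' : (C (algebraMap k E u) : E[X]) ≠ 0 := C_ne_zero.2 ((_root_.map_ne_zero _).2 hu)
          have h0 : (valueAt F G).map (algebraMap k E) ≠ 0 :=
            (Polynomial.map_ne_zero_iff (algebraMap k E).injective).2 hirr'.ne_zero
          exact ((splits_mul_iff hu' h0).1 hcon).2
        have h2 : ((C u * valueAt F G).map (algebraMap k (algebraicClosure k k''))).map
            (φ : algebraicClosure k k'' →+* E) = (C u * valueAt F G).map (algebraMap k E) := by
          rw [Polynomial.map_map, φ.comp_algebraMap]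
        have h3 : ((C u * valueAt F G).map (algebraMap k (algebraicClosure k k''))).Monic := hm.map _
        exact h3.irreducible_of_irreducible_map (φ : algebraicClosure k k'' →+* E) _
          (by rw [h2]; exact h1)
    have he : Irreducible (valueAt (extendPoly k'' F) (G.map (algebraMap k k''))) := by
      rw [valueAt_map]
      rw [Polynomial.map_mul, map_C] at hmap
      have hu' : IsUnit (C (algebraMap k k'' u) : k''[X]) :=
        (isUnit_iff_ne_zero.2 ((_root_.map_ne_zero _).2 hu)).map C
      exact (irreducible_isUnit_mul hu').1 hmap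
    have hs : (valueAt (extendPoly k'' F) (G.map (algebraMap k k''))).Separable := by
      rw [valueAt_map]
      exact hg.separable.map
    have hu2 : IsCoprime (AdjoinRoot.of (extendPoly k'' F)
        (valueAt (extendPoly k'' F) (G.map (algebraMap k k''))))
        (AdjoinRoot.mk (extendPoly k'' F) (derivative (extendPoly k'' F))) := by
      have h1 := hunr.map (Pool.Agent.Q45.NE.sp1 (mapRingHom (algebraMap k k'')) F)
      rw [Pool.Agent.Q45.NE.sp1_of, Pool.Agent.Q45.NE.sp1_mk, ← derivative_map] at h1
      rw [valueAt_map]
      exact h1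
    exact concl_of h2' hB he hs hu2
  · intro E _ _ hE hcon
    have hcon' : ((C u * valueAt F G).map (algebraMap k E)).Splits := by
      rw [Polynomial.map_mul, map_C]
      exact (Splits.C _).mul hcon
    rcases hE with ⟨hgal, hab⟩ | ⟨⟨hgal, hsol⟩, hpp⟩
    · haveI := hgal
      exact Pool.Agent.Q45.NE.ab k (C u * valueAt F G) hm hirr hsep hdom (by rw [hd]; exact hN) E hab
        hcon'
    · haveI := hgal
      exact Pool.Agent.Q45.NE.solv_of Pool.Agent.Q45.NE.JSolv.ext k (C u * valueAt F G) hm hirr hsep hdom
        (by rw [hd]; omega) (by rw [hd]; exact hpp) E hsol hcon'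

theorem branch_line {k : Type} [Field k] {a : k[X]} (ha : a.Monic) (hodd : Odd a.natDegree)
    (h3 : 3 ≤ a.natDegree) (hd : derivative a ≠ 0) : IsBranchCurve (a.map C + C X) := by
  have hpos : 0 < a.natDegree := by omega
  have hgs : a.map C + C X = Pool.Agent.Q45.TG.gs a := rfl
  have hB := Pool.Agent.Q45.TG.gs_isBr (p := 2) a
  have hdeg := Pool.Agent.Q45.TG.gs_natDegree ha hpos
  rw [hgs]
  refine ⟨Pool.Agent.Q45.TG.gs_monic ha hpos, ?_, ?_, ?_, Pool.Agent.Q45.TG.gs_der hd,
    Pool.Agent.Q45.TG.gs_smooth a, hB.ded, hB.units, hB.cls⟩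
  · rw [hdeg]
    exact hodd
  · rw [hdeg]
    exact h3
  · intro k' _ _
    have h1 : (Pool.Agent.Q45.TG.gs a).map (mapRingHom (algebraMap k k')) =
        Pool.Agent.Q45.TG.gs (a.map (algebraMap k k')) := by
      unfold Pool.Agent.Q45.TG.gs
      rw [Polynomial.map_add, map_C, coe_mapRingHom, map_X, Polynomial.map_map, Polynomial.map_map]
      congr 2
      refine RingHom.ext fun c => ?_
      show (C c : k[X]).map (algebraMap k k') = C (algebraMap k k' c)
      rw [map_C]
    rw [h1]
    exact Pool.Agent.Q45.TG.gs_irr (ha.map _) (by rwa [ha.natDegree_map])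

theorem line_large {k : Type} [Field k] {a : k[X]} (ha : a.Monic) (h3 : 3 ≤ a.natDegree) (G : k[X])
    (hG : 0 < G.natDegree) : IsLarge (a.map C + C X) G := by
  have hpos : 0 < a.natDegree := by omega
  have hgs : a.map C + C X = Pool.Agent.Q45.TG.gs a := rfl
  have hdeg := Pool.Agent.Q45.TG.gs_natDegree ha hpos
  rw [hgs]
  intro i hi
  rw [hdeg] at hi ⊢
  have h1 : ((Pool.Agent.Q45.TG.gs a).coeff i).natDegree ≤ 1 := by
    rw [← hgs, coeff_add, coeff_map, coeff_C]
    refine (natDegree_add_le _ _).trans (max_le ?_ ?_)
    · rw [natDegree_C]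
      exact Nat.zero_le _
    · split_ifs
      · exact natDegree_X_le
      · rw [natDegree_zero]
        exact Nat.zero_le _
  rcases Nat.eq_zero_or_pos i with h0 | h0
  · rw [h0, Nat.sub_zero]
    have h2 : 3 * 1 ≤ a.natDegree * G.natDegree := Nat.mul_le_mul h3 hG
    rw [h0] at h1
    omega
  · have h2 : (Pool.Agent.Q45.TG.gs a).coeff i = C (a.coeff i) := by
      rw [← hgs, coeff_add, coeff_map, coeff_C, if_neg h0.ne', add_zero]
    rw [h2, natDegree_C]
    exact Nat.mul_pos (by omega) hG

theorem lines : Lines := by
  intro k _ _ a ha hodd h3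
  have hder : ∀ (k'' : Type) [Field k''] [CharZero k''] (b : k''[X]), 3 ≤ b.natDegree →
      derivative b ≠ 0 := by
    intro k'' _ _ b hb h1
    have h2 := natDegree_eq_zero_of_derivative_eq_zero h1
    omega
  refine ⟨(branch_line ha hodd h3 (hder k a h3)).irreducible, fun G hG => line_large ha h3 G hG, ?_⟩
  intro k'' _ _
  haveI : CharZero k'' := charZero_of_injective_algebraMap (algebraMap k k'').injective
  have h1 : extendPoly k'' (a.map C + C X) = (a.map (algebraMap k k'')).map C + C X := by
    unfold extendPoly
    rw [Polynomial.map_add, map_C, coe_mapRingHom, map_X, Polynomial.map_map, Polynomial.map_map]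
    congr 2
    refine RingHom.ext fun c => ?_
    show (C c : k[X]).map (algebraMap k k'') = C (algebraMap k k'' c)
    rw [map_C]
  have hd : (a.map (algebraMap k k'')).natDegree = a.natDegree := ha.natDegree_map _
  rw [h1]
  exact branch_line (ha.map _) (by rw [hd]; exact hodd) (by rw [hd]; exact h3)
    (hder k'' _ (by rw [hd]; exact h3))

/-- For one pair the conditions follow from the properties of a monic multiple of `e`. -/
theorem good_of {k : Type} [Field k] [CharZero k] {F : k[X][X]} {G : k[X]}
    (hn : 3 ≤ F.natDegree) {u : k} (hu : u ≠ 0) (hm : (C u * valueAt F G).Monic)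
    (hd : (C u * valueAt F G).natDegree = F.natDegree * G.natDegree)
    (hirr : Irreducible (C u * valueAt F G))
    (hdom : IsDomain (AdjoinRoot (Pool.Agent.Q45.NE.quo (C u * valueAt F G))))
    (hdisc : ¬ valueAt F G ∣ F.discr) (hG : 2 ≤ G.natDegree) :
    (valueAt F G).natDegree = F.natDegree * G.natDegree ∧ IsGoodSection F G := by
  have hun : IsUnit (C u : k[X]) := (isUnit_iff_ne_zero.2 hu).map C
  have hirr' : Irreducible (valueAt F G) := (irreducible_isUnit_mul hun).1 hirr
  have hN : 3 ≤ F.natDegree * G.natDegree := by
    calc 3 ≤ 3 * 1 := by norm_num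
      _ ≤ F.natDegree * G.natDegree := Nat.mul_le_mul hn (by omega)
  rw [natDegree_C_mul hu] at hd
  refine ⟨hd, hirr', hirr'.separable, by omega, hdisc, ?_⟩
  have h1 := Pool.Agent.Q45.NE.dt_of_dom hm hirr hdom
  have h2 : ∀ x : SeparableClosure k, aeval x (valueAt F G) = 0 → aeval x (C u * valueAt F G) = 0 := by
    intro x hx
    rw [map_mul, hx, mul_zero]
  intro a b c d ha hb hab hc hd' hcd
  exact h1 a b c d (h2 a ha) (h2 b hb) hab (h2 c hc) (h2 d hd') hcd

/-- **The Tate conjecture over many extensions at once.** The criterion, the theorem that its conditions are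
satisfied for almost all the sections over number fields, and the examples `a(w) + t = 0`. -/
theorem result : Criterion ∧ Generic ∧ Lines := by
  refine ⟨fun k _ F G h2 hF hn hg => holds_of h2 hF hn hg, ?_, lines⟩
  intro k _ _ F G hF hn hgi hG hdeg
  have hirr : Irreducible F := irr_self hgi
  obtain ⟨u, hu, hmd, hud⟩ := Pool.Agent.Q45.NE.ud_sec hF hirr (by omega) hgi hG hdeg
  have key := Pool.Agent.Q45.HI.tendsto_of_ud (ι := Fin 2)
    (S := {v : Fin 2 → ℤ | ¬ ((valueAt F (section2 G v)).natDegree = F.natDegree * G.natDegree ∧
      IsGoodSection F (section2 G v))}) (fun ε hε => by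
      refine Pool.Agent.Y706.UD_mono ?_ (hud ε hε)
      intro v hv hcon
      apply hv
      have h1 : section2 G v = Pool.Agent.Q45.NE.sec G v := rfl
      have h2 := Pool.Agent.Q45.NE.sec_deg hG v
      rw [h1]
      have h3 := good_of (G := Pool.Agent.Q45.NE.sec G v) hn hu (hmd v).1 (by rw [h2]; exact (hmd v).2)
        hcon.1 hcon.2.1 hcon.2.2 (by rw [h2]; exact hG)
      rw [h2] at h3
      exact h3)
  refine key.congr fun H => ?_
  rw [Fintype.card_fin]
  rfl

end Pool.Agent.Results.MP_89bcae_ag.AllExtensionsAtOnce
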