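import Pool.Agent.Q269.FG.Gen
import Pool.Agent.Q269.FG.Coh

/-!
# The Selmer group conjecture over `k(t)` for almost all superelliptic twists, for every infinite
# finitely generated field `k` of odd characteristic

Let `p` be an odd prime, `A` any infinite finitely generated integral domain of characteristic `p`, `k`
its field of fractions (so `k` is any infinite finitely generated field of characteristic `p`, of any
transcendence degree at least one), `ℓ` an odd prime such that `k` contains the roots of unity of order
`ℓ` (so `ℓ ≠ p`), `n ≥ 3` prime to `ℓ`, and `b 1, …, b n` polynomials over `A` such that all the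
differences `b i - b j` (`i ≠ j`) have the same degree `N ≥ 1` and the product of the differences
`b i - b j`, `i < j`, is separable over `k`. (For example `N = 1`, `b i = c i t + (c i) ^ 2`, where the `c i` are distinct
elements of `A` such that the sums `c i + c j`, `i < j`, are distinct.) For a monic polynomial `D` over
`A` let `J_D` be the Jacobian of the curve of genus `(ℓ - 1) (n - 1) / 2`

`y ^ ℓ = D(t) (x - b 1) ⋯ (x - b n)`.

Theorem. For every `η > 0` there is a proper ideal `M` of finite index of `A` such that, for all large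
`m` with `m` and `m + n N` not divisible by `ℓ`, for at least the proportion `1 - η` of the monic
polynomials `E` of degree `m` over `A / M`, EVERY monic `D` over `A` congruent to `E` modulo `M` has the
following properties:

1. all classes of `ℓ`-power order in `H ^ 1 (k(t), J_D)` which are trivial over the completions of
  `k(t)` at all the maximal ideals of `k[t]` are zero, the `ℓ`-adic Tate module of this group is zero
  (so the map `J_D(K) ⊗ ℤ_ℓ → Sel(J_D, ℤ_ℓ)` is an isomorphism, `K = k(t)`: the Selmer group conjecture
  holds for `J_D` over `K` at the prime `ℓ`), and every point of `J_D(K)` is the sum of a `K`-point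
  killed by `ℓ` and of `ℓ` times a `K`-point (so `J_D(K)` is finite);
2. there is a homomorphism `r` of `A` onto a finite field `F` such that the same holds over `k₁(t)` for
  EVERY discrete valuation ring `O` which contains the roots of unity of order `ℓ` in its fraction
  field `k₁`, with homomorphisms `g : A → O` and `ρ : O → F` such that `ρ g = r` (for example
  `k₁ = F(u)` and `k₁ = F((u))`, and infinitely many extensions of `k`); `k` itself is the fraction
  field of such a subring `O` containing `A`.

So 100 percent of the polynomials `D` over `A` (a random residue class modulo ideals of finite index)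
have this property. The starting files contain the theorem for number fields `k`
(`MP_89bcae_ag.SuperellipticSurfaces`) and, for finite fields `k`, a positive proportion
(`MP_0d42ed_ag.SuperellipticTwists`).

The proof: `k` is separably generated over `𝔽_p`; a version of the embedding theorem of Cassels
(`Pool.Agent.Q269.FG.CasP`) gives infinitely many homomorphisms `r` of `A` onto finite fields `F` with
an embedding of `k` into `F((u))` which maps `A` and finitely many given elements into `F[[u]]` and
lifts `r`; the intersection of `k` with `F[[u]]` is a discrete valuation ring. The descent by `1 - ζ`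
over `k₁(t)` is transferred to `F(t)` (`Pool.Agent.Y164.NZ.imp_good`), where the matrix of the residue
symbols has trivial kernel for a positive proportion of the polynomials, uniform in `F`. Finally many
`r` are used at the same time.
-/

set_option autoImplicit false
set_option linter.all false

namespace Pool.Agent.Results.MP_89bcae_ag.DensityOneCharP

open Polynomial
open Pool.Agent.Q269.FG.Coh

section
variable {A F : Type} [CommRing A] [Field F] (r : A →+* F) (ℓ : ℕ) {n : ℕ} (b : Fin n → A[X])

/-- The curve `y ^ ℓ = D ∏ (x - b i)` over `K₁ = k₁(t)`, where `j : A → k₁`. -/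
noncomputable def curve {k₁ : Type} [Field k₁] (K₁ : Type) [Field K₁] [Algebra k₁[X] K₁]
    (j : A →+* k₁) (D : A[X]) : K₁[X] :=
  twist K₁ (fun i => (b i).map j) (D.map j)

/-- The conjecture over `k₁(t)` for the fraction fields `k₁` (containing a primitive `ℓ`-th root of
unity) of all the discrete valuation rings `O` with `g : A → O` and `ρ : O → F` such that `ρ g = r`. -/
def HoldsOver (D : A[X]) : Prop :=
  ∀ (O k₁ K₁ : Type) [CommRing O] [IsDomain O] [IsDiscreteValuationRing O] [Field k₁] [Algebra O k₁]
    [IsFractionRing O k₁] [Field K₁] [Algebra k₁[X] K₁] [IsFractionRing k₁[X] K₁] (g : A →+* O)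
    (ρ : O →+* F), ρ.comp g = r → (∃ ζ : k₁, IsPrimitiveRoot ζ ℓ) →
      SelmerConjecture ℓ k₁ K₁ (curve b K₁ ((algebraMap O k₁).comp g) D)

variable (k : Type) [Field k] [Algebra A k]

/-- `k` is the fraction field of a discrete valuation ring containing `A` with a homomorphism to `F`
which extends `r`. -/
def IsDominated : Prop :=
  ∃ (O : Subring k) (_ : IsDiscreteValuationRing O) (_ : IsFractionRing O k)
    (h : ∀ a : A, algebraMap A k a ∈ O) (ρ : O →+* F),
      ρ.comp ((algebraMap A k).codRestrict O h) = r

end

section
variable {A : Type} [CommRing A] (k : Type) [Field k] [Algebra A k] (ℓ : ℕ) {n : ℕ}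
  (b : Fin n → A[X])

/-- The properties 1 and 2 of the polynomial `D`. -/
def HasProperties (D : A[X]) : Prop :=
  (∀ (K : Type) [Field K] [Algebra k[X] K] [IsFractionRing k[X] K],
    SelmerConjecture ℓ k K (curve b K (algebraMap A k) D)) ∧
  ∃ (F : Type) (_ : Field F) (_ : Finite F) (r : A →+* F), Function.Surjective r ∧
    IsDominated r k ∧ HoldsOver r ℓ b D

/-- All the differences of the polynomials `b i` over `A` have the same degree `N ≥ 1`, and the product
of the differences is separable over the field `k`. -/
structure IsSeparablyAdmissible (N : ℕ) : Prop where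
  pos : 1 ≤ N
  degree : ∀ i j, i ≠ j → (b i - b j).natDegree = N
  separable : ((differences b).map (algebraMap A k)).Separable

end

theorem result {ℓ : ℕ} (hℓ : ℓ.Prime) (hℓ2 : ℓ ≠ 2) {p : ℕ} (hp : p.Prime) (hp2 : p ≠ 2) {A : Type}
    [CommRing A] [IsDomain A] [Infinite A] [CharP A p] [Algebra.FiniteType ℤ A] {k : Type} [Field k]
    [Algebra A k] [IsFractionRing A k] (hζ : ∃ ζ : k, IsPrimitiveRoot ζ ℓ) {n : ℕ} (hn : ¬ ℓ ∣ n)
    (hn3 : 3 ≤ n) {N : ℕ} (b : Fin n → A[X]) (hb : IsSeparablyAdmissible k b N) :
    HoldsForAlmostAll {m | ¬ ℓ ∣ m ∧ ¬ ℓ ∣ m + n * N} (HasProperties k ℓ b) := by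
  haveI : Fact p.Prime := ⟨hp⟩
  obtain ⟨ζ, hζ⟩ := hζ
  have hinj : Function.Injective (algebraMap A k) := IsFractionRing.injective A k
  haveI : CharP k p := charP_of_injective_algebraMap hinj p
  haveI : Infinite k := Infinite.of_injective _ hinj
  letI : Algebra (ZMod p) k := ZMod.algebra k p
  have hfr : ∀ x : k, ∃ a b : A, algebraMap A k b ≠ 0 ∧ x = algebraMap A k a / algebraMap A k b := by
    intro x
    obtain ⟨a, c, hc, h⟩ := IsFractionRing.div_surjective (A := A) x
    exact ⟨a, c, (map_ne_zero_iff _ hinj).2 (nonZeroDivisors.ne_zero hc), h.symm⟩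
  obtain ⟨s, hs⟩ := range_le_of_finiteType (A := A) (k := k)
  haveI : Algebra.EssFiniteType (ZMod p) k := by
    rw [← IntermediateField.fg_top_iff]
    refine ⟨s, ?_⟩
    rw [eq_top_iff]
    intro x _
    have hle : ∀ y : A, algebraMap A k y ∈ IntermediateField.adjoin (ZMod p) (s : Set k) := by
      intro y
      have h1 : Subring.closure (s : Set k) ≤
          (IntermediateField.adjoin (ZMod p) (s : Set k)).toSubfield.toSubring := by
        rw [Subring.closure_le]
        exact IntermediateField.subset_adjoin _ _
      exact h1 (hs ⟨y, rfl⟩)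
    obtain ⟨a, c, hc, rfl⟩ := hfr x
    exact div_mem (hle a) (hle c)
  refine HoldsForAlmostAll.of (Q := fun D : A[X] => ∃ (F : Type) (_ : Field F) (_ : Finite F)
    (r : A →+* F) (O : Subring k) (_ : IsDiscreteValuationRing O) (_ : IsFractionRing O k)
    (ρ : O →+* F) (h : ∀ a, algebraMap A k a ∈ O), Function.Surjective r ∧
      ρ.comp ((algebraMap A k).codRestrict O h) = r ∧ Pool.Agent.Q269.FG.ExtG r ℓ b D) ?_ ?_
  · intro η hη
    obtain ⟨M, hM1, hM2, h⟩ := Pool.Agent.Q269.FG.mainP hℓ hℓ2 hp2 hζ (algebraMap A k) hinj hfr
      ⟨s, hs⟩ hn hn3 hb.pos b hb.degree hb.separable η hη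
    refine ⟨M, hM1, hM2, ?_⟩
    filter_upwards [h] with m hm hmS
    exact hm hmS.1 hmS.2
  · rintro D hD ⟨F, i1, i2, r, O, i3, i4, ρ, h5, hr, hρr, hext⟩
    refine ⟨?_, F, i1, i2, r, hr, ⟨O, i3, i4, h5, ρ, hρr⟩, ?_⟩
    · intro K _ _ _
      obtain ⟨h3, h4⟩ := hext O k K ((algebraMap A k).codRestrict O h5) ρ hρr ⟨ζ, hζ⟩
      exact ⟨h3, ShaTrivial.tate h3, h4⟩
    · intro O₁ k₁ K₁ _ _ _ _ _ _ _ _ _ g ρ₁ hg hζ₁
      obtain ⟨h3, h4⟩ := hext O₁ k₁ K₁ g ρ₁ hg hζ₁
      exact ⟨h3, ShaTrivial.tate h3, h4⟩

end Pool.Agent.Results.MP_89bcae_ag.DensityOneCharP
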