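import Pool.Agent.Q28.ZU.ConvDiv

/-!
# The Tate conjecture for divisors, or zero percent

Let `k` be a finitely generated field of characteristic zero, embedded in `ℂ`, let `X` be a smooth
projective variety over `k`, for example a surface, and let `l` be a prime number. Let `T(X^n)` be
the space of the `l`-adic Tate classes of all degrees on the power `X^n`: the classes which are fixed,
up to the twist, by a subgroup of finite index of the Galois group. We prove:

* either the Tate conjecture for divisors and for classes of curves holds at `l` for all powers of
  `X`: all Tate classes in `H^2(X^n)(1)` are linear combinations of classes of divisors, and all Tate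
  classes in the complementary degree are linear combinations of classes of curves; or the rational
  classes on `X^n` which are Hodge classes and whose images in `l`-adic cohomology are Tate classes
  are asymptotically zero percent of the Tate classes: the dimension of the space of these classes
  divided by the dimension of `T(X^n)` tends to zero;
* in particular, if the Tate conjecture for divisors fails for `X` (or for one power of `X`) at `l`,
  then the rank of the group of algebraic cycles on `X^n` modulo numerical equivalence, divided by
  the dimension of `T(X^n)`, tends to zero: a single class in `H^2(X)(1)` which violates the
  conjecture forces almost all Tate classes on the powers of `X` to violate it.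

The only input on algebraic cycles is the theorem of Lefschetz on classes of type `(1,1)`. No
conjecture and no semisimplicity is assumed. The theorem is proved for an arbitrary class of smooth
projective varieties which is stable under products, with a Hodge theory `T` satisfying the theorem
of Lefschetz, and an `l`-adic theory `L` over it (a Weil cohomology with a comparison isomorphism and
a Galois action).
-/

open CategoryTheory AlgebraicGeometry

universe u w

namespace Pool.Agent.Results.MP_89bcae_ag.DivisorZeroOneLaw

open Pool.Agent.H914
open Pool.Agent.Y121.AHS (HodgeTheory IsHodge RatioToZero)
open Pool.Agent.Y133.Half (pw)
open Pool.Agent.Q28.ZC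

variable {k : Type u} [Field k] {𝒱 : VarClass k} {ops : CycleOps 𝒱}

/-- **The Tate conjecture for divisors on all powers, or zero percent.** `pw X n` is the product of
`n + 1` copies of `X`. -/
theorem result {T : HodgeTheory ops} (h11 : ∀ Y : 𝒱.Obj, AlgIn (IsHodge T) Y 1)
    (L : Ladic.{u, w} T.W) (X : 𝒱.Obj) [Nontrivial (T.W.H X)] :
    ((∀ n, TateDivisorsCurves L (pw X n)) ∨
      RatioToZero (fun n => dimP (IsHT L) (pw X n)) fun n => dimP (IsTate L) (pw X n)) ∧
    ((∀ n, TateDivisorsCurves L (pw X n)) ∨
      RatioToZero (fun n => cycRk ops (pw X n)) fun n => dimP (IsTate L) (pw X n)) :=
  div_final h11 L X

end Pool.Agent.Results.MP_89bcae_ag.DivisorZeroOneLaw
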