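import Pool.Agent.Q45.AP.Fix
import Pool.Agent.Q45.EM.Opn
import Pool.Agent.Q45.EM.Prm
import Pool.Agent.Q45.OI.P.PD
import Pool.Agent.Q45.RD.Good
import Pool.Agent.Y160.SL.Conv

/-!
# The Tate conjecture for divisors at every prime, for almost all the sections

Let `k` be a field of characteristic different from two with separable closure `k'`, `Γ = Gal(k' / k)`, and let
`P(t, w)` be a polynomial over `k`, monic of odd degree `n ≥ 3` in `w`, such that the plane curve `C : P = 0` is
smooth and isomorphic to the affine line over `k'`. Let `G(t)` be a polynomial over `k`, such that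
`e(t) = P(t, G(t))` is separable and prime to the discriminant of `P`. Let `S` be the surface

`Y ^ 2 = (w - G(t)) P(t, w)`,

`J` the Jacobian of its generic fibre over the `t`-line, a curve over `K = k(t)`, `F = k'(t)`, and `M` the
`ℤ_2`-module of the classes of the continuous cocycles of `Gal(Sep F / F)` with values in the Tate module `T_2 J`
which are locally trivial at all the maximal ideals of `k'[t]`. Let `D` be the class in `M` of the rational point
of `J` given by the section, and `V = M / ℤ_2 D`; the group `Γ` acts on `V`.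

(1) Suppose that the degree `N` of `e` is odd and at least `5` and that `Γ` induces all the permutations of the
roots of `e`. Then `V` is free of rank `0` or `N - 1` and irreducible. Suppose further that `V` has an invariant
symmetric bilinear form different from zero, and that the image of `Γ` in `Aut (V)` contains an element which is
`1` modulo `4` and different from `1`. Let `l` be ANY prime and let `W` be a vector space of finite dimension over
`ℚ_l` with an action of `Γ` which is compatible with the one on `V`: there is a subset `S` of `Γ` which is dense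
for the action on `V`, and the powers of the elements of `S` have the same characteristic polynomials, with
rational coefficients, on `V` and on `W`. Then no vector of `W` different from zero is fixed by a subgroup of
finite index of `Γ`.

For a number field `k` the set of the Frobenius elements is dense by Chebotarev's theorem, and the part `V_l Br`
of the second cohomology of `S` with coefficients in `ℚ_l(1)`, the quotient by the classes of the divisors which
are contained in every surface of the family, is compatible with `V`. So (1) says that there are no Tate classes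
for divisors on `S` other than the obvious ones, over any finite extension of `k` and at every prime `l`.

(2) Let `k` be a number field, `C : P = 0` as above and `deg G` odd, at least `3`, and large compared to `P`. Then
for 100% of the pairs `v` of integers, ordered by their size, the section `G + v₁ t + v₀` satisfies the
conditions in the first sentence of (1).

(3) The conditions on the curve `C` are satisfied for `P = a(w) + t`, where `a` is monic of odd degree at
least `3` and `k` has characteristic zero.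
-/

set_option autoImplicit false
set_option linter.all false

open Polynomial IsDedekindDomain Filter Topology
open scoped Classical

namespace Pool.Agent.Results.MP_89bcae_ag.EveryPrimeSections

open Pool.Agent.Y160.SL
open Pool.Agent.TH115.GD (incl ak Sep Comp)

/-- The partial derivative of `P(t, w)` with respect to `t`: the derivative is applied to the
coefficients. -/
noncomputable def derivT {k : Type} [Field k] (P : k[X][X]) : k[X][X] :=
  P.sum fun i a => C (derivative a) * X ^ i

/-- The affine curve `P(t, w) = 0` is smooth. -/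
def IsSmooth {k : Type} [Field k] (P : k[X][X]) : Prop :=
  ∃ a b c : k[X][X], a * P + b * derivative P + c * derivT P = 1

/-- The polynomial `P(t, w)` over `k'`. -/
noncomputable def extendPoly {k : Type} [Field k] (k' : Type) [Field k'] [Algebra k k']
    (P : k[X][X]) : k'[X][X] := P.map (mapRingHom (algebraMap k k'))

/-- The curve `P(t, w) = 0` over `k` is isomorphic to the affine line: its coordinate ring is isomorphic,
as a `k`-algebra, to the ring of polynomials in one variable. -/
def IsAffineLine {k : Type} [Field k] (P : k[X][X]) : Prop :=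
  Nonempty (AdjoinRoot P ≃ₐ[k] k[X])

/-- The polynomial `e(t) = P(t, G(t))`. -/
noncomputable def valueAt {k : Type} [Field k] (P : k[X][X]) (G : k[X]) : k[X] := P.eval G

/-- The polynomial `x ^ n + a₁ x ^ (n - 1) + a₂ e x ^ (n - 2) + ⋯ + a_n e ^ (n - 1)`, where `e = P(t, G)`
and `P(t, G + T) = e + a₁ T + a₂ T ^ 2 + ⋯ + a_n T ^ n`. -/
noncomputable def oddModel {k : Type} [Field k] (P : k[X][X]) (G : k[X]) : k[X][X] :=
  X ^ P.natDegree + ∑ i ∈ Finset.range P.natDegree,
    C ((taylor G P).coeff (i + 1) * valueAt P G ^ i) * X ^ (P.natDegree - 1 - i)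

/-- The same polynomial over the field `K` which contains `k[t]`. -/
noncomputable def fPoly {k : Type} [Field k] (P : k[X][X]) (G : k[X]) (K : Type) [Field K]
    [Algebra k[X] K] : K[X] := (oddModel P G).map (algebraMap k[X] K)

/-- The conditions on the curve `P(t, w) = 0` over `k`; `k'` is the separable closure of `k`. -/
structure IsCurve {k : Type} [Field k] (k' : Type) [Field k'] [Algebra k k'] (P : k[X][X]) :
    Prop where
  two : (2 : k) ≠ 0
  monic : P.Monic
  odd : Odd P.natDegree
  three_le : 3 ≤ P.natDegree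
  deriv_ne : derivative P ≠ 0
  smooth : IsSmooth P
  line : IsAffineLine (extendPoly k' P)

/-- The conditions on the curve `P(t, w) = 0` and on the section `w = G(t)` over `k`. -/
structure IsPair {k : Type} [Field k] (k' : Type) [Field k'] [Algebra k k'] (P : k[X][X])
    (G : k[X]) : Prop where
  curve : IsCurve k' P
  separable : (valueAt P G).Separable
  coprime : IsCoprime (valueAt P G) P.discr

section roots

variable {k k' : Type} [Field k] [Field k'] [Algebra k k']

/-- All the permutations of the roots of `p` in `k'` are induced by automorphisms of `k'` over `k`. -/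
def HasAllPermutations (k' : Type) [Field k'] [Algebra k k'] (p : k[X]) : Prop :=
  ∀ π : Equiv.Perm (p.rootSet k'), ∃ σ : k' ≃ₐ[k] k', ∀ r : p.rootSet k', σ r = (π r : k')

/-- The pair `P, G` is as above, the degree of `e(t) = P(t, G(t))` is odd and at least `5`, and all the
permutations of the roots of `e` are induced by automorphisms of `k'` over `k`. -/
structure IsGeneric {k : Type} [Field k] (k' : Type) [Field k'] [Algebra k k'] (P : k[X][X])
    (G : k[X]) : Prop where
  pair : IsPair k' P G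
  odd : Odd (valueAt P G).natDegree
  five_le : 5 ≤ (valueAt P G).natDegree
  full : HasAllPermutations k' (valueAt P G)

end roots

section gen

variable {K F Ω : Type} [Field K] [Field F] [Field Ω] [Algebra K F] [Algebra F Ω] [Algebra K Ω]
  [IsScalarTower K F Ω] (f : K[X])

/-- The sequences of cochains of `Gal(Ω / F)` with values in `J(Ω)`. -/
abbrev Cochain (F Ω : Type) [Field F] [Field Ω] [Algebra K Ω] [Algebra F Ω] (f : K[X]) : Type :=
  ℕ → (Ω ≃ₐ[F] Ω) → Jac 2 f Ω

/-- `c` is the coboundary of an element `R` of the Tate module `T_2 J`. -/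
def IsTateCoboundary (c : Cochain F Ω f) : Prop :=
  ∃ R : ℕ → Jac 2 f Ω, IsTM 2 2 f R ∧ ∀ n, IsCobOf 2 f (c n) (R n)

/-- The map `κ` identifies with `M` the group of the classes of the cocycles with the property `P`:
it is additive and surjective on these cocycles, and `κ c = 0` if and only if `c` is the coboundary of
an element of the Tate module. -/
structure IsClassMap (P : Cochain F Ω f → Prop) (M : Type) [AddCommGroup M]
    (κ : Cochain F Ω f → M) : Prop where
  surj : ∀ m, ∃ c, P c ∧ κ c = m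
  add : ∀ c d, P c → P d → κ (c + d) = κ c + κ d
  zero : ∀ c, P c → (κ c = 0 ↔ IsTateCoboundary f c)

/-- `d` is the transform of the cochain `c` by the automorphism `T` of `Ω` over `K`:
`d (σ) = T (c (σ'))`, where `σ' = T⁻¹ σ T`. -/
def IsTransform (T : Ω ≃ₐ[K] Ω) (c d : Cochain F Ω f) : Prop :=
  ∀ n (σ σ' : Ω ≃ₐ[F] Ω), (∀ x, T (σ' x) = σ (T x)) → d n σ = jm 2 f (ak T) (c n σ')

/-- The endomorphism `φ` of `M` is induced by the automorphism `T` of `Ω` over `K`. -/
def IsInduced (P : Cochain F Ω f → Prop) {M : Type} (κ : Cochain F Ω f → M) (T : Ω ≃ₐ[K] Ω)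
    (φ : M → M) : Prop :=
  ∀ c d, P c → IsTransform f T c d → P d ∧ κ d = φ (κ c)

end gen

section point

/-- The ideal of the divisor `u(x) = 0`, `y = v(x)` in the coordinate ring of the affine curve
`y ^ 2 = f(x)`. -/
noncomputable def divIdeal {K : Type} [Field K] (f u v : K[X]) : Ideal (CoordRing 2 f) :=
  Ideal.span {ofPoly 2 f u, wfun 2 f - ofPoly 2 f v}

/-- The ideal `I` of `R` is an invertible module, and `P` is its class in the Picard group. -/
def IsIdealClass {R : Type} [CommRing R] (P : Additive (CommRing.Pic R)) (I : Ideal R) : Prop :=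
  ∃ _ : Module.Invertible R I, P = Additive.ofMul (CommRing.Pic.mk R I)

/-- The element `P` of `J(K) = Pic(K[x, y] / (y ^ 2 - f(x)))` is the class of the ideal of the divisor
`u(x) = 0`, `y = v(x)`. -/
def IsDivisor {K : Type} [Field K] (f u v : K[X]) (P : Jac 2 f K) : Prop :=
  IsIdealClass (R := CoordRing 2 (f.map (algebraMap K K))) P
    (divIdeal (f.map (algebraMap K K)) u v)

end point

section lin

variable {M : Type} [AddCommGroup M] [Module ℤ_[2] M]

/-- The quotient of `M` by the submodule generated by `D`. -/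
abbrev Quot (D : M) : Type := M ⧸ Submodule.span ℤ_[2] {D}

/-- `ψ` is the endomorphism of the quotient induced by `φ`. -/
def IsQuotient (D : M) (φ : M →ₗ[ℤ_[2]] M) (ψ : Quot D →ₗ[ℤ_[2]] Quot D) : Prop :=
  ∀ m : M, ψ (Submodule.Quotient.mk m) = Submodule.Quotient.mk (φ m)

end lin

section sel

variable {K F : Type} [Field K] [Field F] [Algebra K F] (B : Type) [CommRing B] [IsDedekindDomain B]
  [Algebra B F] [IsFractionRing B F] (f : K[X])

/-- The restriction of the cochain `c` to the completion of `F` at every maximal ideal of the Dedekind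
domain `B` with field of fractions `F` is a coboundary. -/
def IsSelmer (c : (Sep F ≃ₐ[F] Sep F) → Jac 2 f (Sep F)) : Prop :=
  ∀ v : HeightOneSpectrum B, LocTriv 2 f (Comp B F v) (Sep (Comp B F v)) c

/-- `c` is a continuous cocycle of `Gal(Sep F / F)` with values in the Tate module `T_2 J` which is
locally trivial at all the maximal ideals of the Dedekind domain `B` with field of fractions `F`; its
component with values in `J[2 ^ n]` is `c n`. -/
def IsSelmerCocycle (c : Cochain F (Sep F) f) : Prop :=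
  IsTC 2 2 f c ∧ ∀ n, IsSelmer B f (c n)

/-- The element `D` of the module of the classes is the class of the element `P₀` of `J(K)`: it is the class
of a cocycle `c` with `c n σ = σ R - R` and `2 ^ n R = P₀`. -/
def IsClassOf {M : Type} [AddCommGroup M] (κ : Cochain F (Sep F) f → M) (P₀ : Jac 2 f K) (D : M) :
    Prop :=
  ∃ c : Cochain F (Sep F) f, IsSelmerCocycle B f c ∧ κ c = D ∧
    ∀ n, ∃ R : Jac 2 f (Sep F), 2 ^ n • R = jm 2 f (incl K K (Sep F)) P₀ ∧ IsCobOf 2 f (c n) R

/-- The constants of `Sep F`. -/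
noncomputable def const {k' : Type} [Field k'] [Algebra k'[X] F] (x : k') : Sep F :=
  algebraMap F (Sep F) (algebraMap k'[X] F (C x))

/-- The automorphism `σ` of `k'` over `k` acts on the quotient of the module `M` of the classes by the
submodule generated by `D` as `ψ`: some automorphism of `Sep F` over `K` which extends `σ` induces an
endomorphism `φ` of `M`, and `φ` induces `ψ`. -/
def ActsAs {k k' : Type} [Field k] [Field k'] [Algebra k k'] [Algebra k'[X] F] {M : Type}
    [AddCommGroup M] [Module ℤ_[2] M] (κ : Cochain F (Sep F) f → M) (D : M) (σ : k' ≃ₐ[k] k')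
    (ψ : Quot D →ₗ[ℤ_[2]] Quot D) : Prop :=
  ∃ (T : Sep F ≃ₐ[K] Sep F) (φ : M →ₗ[ℤ_[2]] M),
    (∀ x : k', T (const (F := F) x) = const (F := F) (σ x)) ∧
    IsInduced f (IsSelmerCocycle B f) κ T φ ∧ IsQuotient D φ ψ

end sel

/-- `M` is the module of the classes, through `κ`, and `D` is the class of the point `x = 0`,
`y = e ^ ((n - 1) / 2)` of `J(K)`. -/
def IsModule {k K F : Type} [Field k] [Field K] [Algebra k[X] K] [Field F] [Algebra K F] (B : Type)
    [CommRing B] [IsDedekindDomain B] [Algebra B F] [IsFractionRing B F] (P : k[X][X]) (G : k[X])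
    {M : Type} [AddCommGroup M] (κ : Cochain F (Sep F) (fPoly P G K) → M) (D : M) : Prop :=
  IsClassMap (fPoly P G K) (IsSelmerCocycle B (fPoly P G K)) M κ ∧
    ∃ P₀ : Jac 2 (fPoly P G K) K,
      IsDivisor (fPoly P G K) X (C (algebraMap k[X] K (valueAt P G ^ ((P.natDegree - 1) / 2)))) P₀ ∧
      IsClassOf B (fPoly P G K) κ P₀ D

section rep

variable {G V : Type} [Group G] [AddCommGroup V] [Module ℤ_[2] V] (A : G → (V →ₗ[ℤ_[2]] V) → Prop)
  (β : V → V → ℤ_[2])

/-- `β` is a symmetric bilinear form different from zero on `V` which is invariant under the action; `A σ ψ`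
means that `σ` in the group `G` acts on `V` as `ψ`. -/
structure IsInvariantForm : Prop where
  add : ∀ x y z, β (x + y) z = β x z + β y z
  smul : ∀ (c : ℤ_[2]) x y, β (c • x) y = c * β x y
  symm : ∀ x y, β x y = β y x
  ne : ∃ x y, β x y ≠ 0
  inv : ∀ σ ψ, A σ ψ → ∀ x y, β (ψ x) (ψ y) = β x y

/-- Some element of the image of `G` is congruent to `1` modulo `4` and different from `1`. -/
def HasInfiniteImage : Prop :=
  ∃ σ ψ, A σ ψ ∧ (∀ v, ∃ v', ψ v - v = (4 : ℤ_[2]) • v') ∧ ∃ v, ψ v ≠ v

/-- Each submodule of `V` which is stable under `G` is zero or contains `2 ^ r V` for some `r`. -/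
def IsIrreducible : Prop :=
  ∀ U : Submodule ℤ_[2] V, (∀ σ ψ, A σ ψ → ∀ v ∈ U, ψ v ∈ U) →
    U = ⊥ ∨ ∃ r : ℕ, ∀ v : V, (2 : ℤ_[2]) ^ r • v ∈ U

end rep

section primes

/-- The endomorphism `ψ` of the free `ℤ_2`-module `V` and the endomorphism `ω` of the space `W` over `ℚ_l`
have the same characteristic polynomial, which has rational coefficients. -/
def SameCharpoly (l : ℕ) [Fact l.Prime] {V W : Type} [AddCommGroup V] [Module ℤ_[2] V]
    [Module.Finite ℤ_[2] V] [Module.Free ℤ_[2] V] [AddCommGroup W] [Module ℚ_[l] W]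
    [Module.Finite ℚ_[l] W] (ψ : V →ₗ[ℤ_[2]] V) (ω : W →ₗ[ℚ_[l]] W) : Prop :=
  ∃ p : ℚ[X], p.map (algebraMap ℚ ℚ_[2]) = ψ.charpoly.map (algebraMap ℤ_[2] ℚ_[2]) ∧
    p.map (algebraMap ℚ ℚ_[l]) = ω.charpoly

variable {G V : Type} [Group G] [AddCommGroup V] [Module ℤ_[2] V] (A : G → (V →ₗ[ℤ_[2]] V) → Prop)

/-- Each element of `G` acts on `V` modulo `2 ^ r` as some element of `S`. -/
def IsDense (S : Set G) : Prop :=
  ∀ (σ : G) (r : ℕ), ∃ τ ∈ S, ∀ ψ ψ', A σ ψ → A τ ψ' → ∀ v, ∃ v', ψ' v - ψ v = (2 : ℤ_[2]) ^ r • v'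

variable [Module.Finite ℤ_[2] V] [Module.Free ℤ_[2] V]

/-- The representation `ω` of `G` over `ℚ_l` is compatible with the representation on `V` at the elements of
`S`: the powers of these elements have the same characteristic polynomials, with rational coefficients. -/
def IsCompatible (l : ℕ) [Fact l.Prime] (S : Set G) {W : Type} [AddCommGroup W] [Module ℚ_[l] W]
    [Module.Finite ℚ_[l] W] (ω : G →* Module.End ℚ_[l] W) : Prop :=
  ∀ τ ∈ S, ∀ (m : ℕ) (ψ : V →ₗ[ℤ_[2]] V), A (τ ^ m) ψ → SameCharpoly l ψ (ω (τ ^ m))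

/-- For EVERY prime `l` and every representation `W` of `G` over `ℚ_l` which is compatible with the one on `V`
at a dense set of elements, the vectors in `W` which are fixed by a subgroup of finite index are zero. -/
def NoTateClasses : Prop :=
  ∀ (l : ℕ) [Fact l.Prime] (S : Set G) (W : Type) [AddCommGroup W] [Module ℚ_[l] W]
    [Module.Finite ℚ_[l] W] (ω : G →* Module.End ℚ_[l] W), IsDense A S → IsCompatible A l S ω →
    ∀ Δ : Subgroup G, Δ.FiniteIndex → ∀ w : W, (∀ δ ∈ Δ, ω δ w = w) → w = 0

end primes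

/-- The module `M` of the classes is free of finite rank, the quotient `V = M / ℤ_2 D` is free of rank `0` or
`deg e - 1`, `Gal(k' / k)` acts on it, the action is irreducible, and it has the property `R`. -/
def Concl {k k' K F : Type} [Field k] [Field k'] [Algebra k k'] [Field K] [Algebra k[X] K] [Field F]
    [Algebra K F] [Algebra k'[X] F] [IsFractionRing k'[X] F] (P : k[X][X]) (G : k[X])
    (R : ∀ (V : Type) [AddCommGroup V] [Module ℤ_[2] V] [Module.Finite ℤ_[2] V]
      [Module.Free ℤ_[2] V], ((k' ≃ₐ[k] k') → (V →ₗ[ℤ_[2]] V) → Prop) → Prop) : Prop :=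
  ∃ (M : Type) (_ : AddCommGroup M) (_ : Module ℤ_[2] M) (_ : Module.Finite ℤ_[2] M)
    (_ : Module.Free ℤ_[2] M) (κ : Cochain F (Sep F) (fPoly P G K) → M) (D : M)
    (_ : Module.Free ℤ_[2] (Quot D)),
    IsModule k'[X] P G κ D ∧
    (Module.finrank ℤ_[2] (Quot D) = 0 ∨
      Module.finrank ℤ_[2] (Quot D) = (valueAt P G).natDegree - 1) ∧
    (∀ σ : k' ≃ₐ[k] k', ∃ ψ, ActsAs k'[X] (fPoly P G K) κ D σ ψ) ∧
    IsIrreducible (ActsAs (k := k) (k' := k') k'[X] (fPoly P G K) κ D) ∧
    R (Quot D) (ActsAs k'[X] (fPoly P G K) κ D)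

/-- (1) The criterion. -/
def Criterion : Prop :=
  ∀ (k k' K F : Type) [Field k] [Field k'] [Algebra k k'] [IsSepClosure k k'] [Field K]
    [Algebra k[X] K] [IsFractionRing k[X] K] [Field F] [Algebra k'[X] F] [IsFractionRing k'[X] F]
    [Algebra K F] (P : k[X][X]) (G : k[X]),
    (∀ p : k[X], algebraMap K F (algebraMap k[X] K p) =
      algebraMap k'[X] F (p.map (algebraMap k k'))) → IsGeneric k' P G →
      Concl (k' := k') (K := K) (F := F) P G fun V _ _ _ _ act =>
        ∀ β : V → V → ℤ_[2], IsInvariantForm act β → HasInfiniteImage act → NoTateClasses act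

/-- The degree of `G` is large compared to `P`. -/
def IsLargeDegree {k : Type} [Field k] (P : k[X][X]) (G : k[X]) : Prop :=
  ∀ i < P.natDegree, (P.coeff i).natDegree < (P.natDegree - i) * G.natDegree

/-- The section `G(t) + v₁ t + v₀`. -/
noncomputable def section2 {k : Type} [Field k] (G : k[X]) (v : Fin 2 → ℤ) : k[X] :=
  G + C ((v 1 : ℤ) : k) * X + C ((v 0 : ℤ) : k)

/-- (2) For a number field `k` the section `G + v₁ t + v₀` satisfies the conditions in (1), except for a set
of pairs `(v₀, v₁)` of density zero. -/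
def AlmostAllSections : Prop :=
  ∀ (k k' : Type) [Field k] [NumberField k] [Field k'] [Algebra k k'] [IsSepClosure k k']
    (P : k[X][X]) (G : k[X]), IsCurve k' P → Odd G.natDegree → 3 ≤ G.natDegree →
    IsLargeDegree P G →
    Tendsto (fun H : ℕ => (({v : Fin 2 → ℤ | (∀ i, |v i| ≤ (H : ℤ)) ∧
        ¬ IsGeneric k' P (section2 G v)}.ncard : ℕ) : ℝ) / (2 * (H : ℝ) + 1) ^ 2) atTop (𝓝 0)

/-- (3) The curves `a(w) + t = 0`. -/
def Lines : Prop :=
  ∀ (k k' : Type) [Field k] [CharZero k] [Field k'] [Algebra k k'] (a : k[X]), a.Monic →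
    Odd a.natDegree → 3 ≤ a.natDegree → IsCurve k' (a.map C + C X) ∧
      ∀ G : k[X], 0 < G.natDegree → IsLargeDegree (a.map C + C X) G

open Pool.Agent.Q45.GM (SelT clsOf clsOf_surj clsOf_add clsOf_zero rho rho_cls rho_mul rho_one
  isGeom_rat cs cs_apply rho_congr)
open Pool.Agent.Q45.EM

section conv

variable {K F : Type} [Field K] [Field F] [Algebra K F] {B : Type} [CommRing B] [IsDedekindDomain B]
  [Algebra B F] [IsFractionRing B F] {f : K[X]}

theorem toTC {c : Cochain F (Sep F) f} (h : IsTC 2 2 f c) : Pool.Agent.Y160.SQ.IsTC 2 2 f c :=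
  ⟨fun n => ⟨(h.coc n).lc, (h.coc n).mul⟩, h.zero, h.step⟩

theorem ofTC {c : Cochain F (Sep F) f} (h : Pool.Agent.Y160.SQ.IsTC 2 2 f c) : IsTC 2 2 f c :=
  ⟨fun n => ⟨(h.coc n).lc, (h.coc n).mul⟩, h.zero, h.step⟩

/-- The classes of the cocycles. -/
theorem classMap : IsClassMap f (IsSelmerCocycle B f) (SelT (F := F) 2 B f 2) (clsOf B f) where
  surj m := by
    obtain ⟨c, ⟨h1, h2⟩, h3⟩ := clsOf_surj B f m
    exact ⟨c, ⟨ofTC h1, h2⟩, h3⟩
  add c d hc hd := clsOf_add B f (toTC hc.1) hc.2 (toTC hd.1) hd.2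
  zero c hc := by
    refine (clsOf_zero B f (toTC hc.1) hc.2).trans ⟨?_, ?_⟩
    · rintro ⟨R, hR, h⟩
      exact ⟨R, ⟨hR.zero, hR.step⟩, h⟩
    · rintro ⟨R, hR, h⟩
      exact ⟨R, ⟨hR.zero, hR.step⟩, h⟩

end conv

section acts

variable {k k' K F : Type} [Field k] [Field k'] [Algebra k k'] [IsSepClosed k']
  [Algebra.IsSeparable k k'] [Field K] [Algebra k[X] K] [Field F] [Algebra k'[X] F] [Algebra K F]

theorem induced_iff [IsFractionRing k'[X] F] (hF' : Pool.Agent.Q45.TW.IsGeom k k' K F) (f : K[X])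
    (T : Sep F ≃ₐ[K] Sep F)
    (φ : SelT (F := F) 2 k'[X] f 2 →ₗ[ℤ_[2]] SelT (F := F) 2 k'[X] f 2) :
    IsInduced f (IsSelmerCocycle k'[X] f) (clsOf k'[X] f) T φ ↔ φ = rho k'[X] hF' f T := by
  constructor
  · intro h
    refine LinearMap.ext fun m => ?_
    obtain ⟨c, ⟨hc, hcs⟩, rfl⟩ := clsOf_surj k'[X] f m
    have hcj := Pool.Agent.Q45.GM.lf_T k'[X] hF' f T
    have hd : IsTransform f T c (fun n σ => jm 2 f (ak T)
        (c n ((Pool.Agent.Q45.GM.lf k'[X] hF' f T).conj σ))) := by
      intro n σ σ' hσ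
      have h5 : (Pool.Agent.Q45.GM.lf k'[X] hF' f T).conj σ = σ' := by
        refine AlgEquiv.ext fun x => T.injective ?_
        rw [hσ]
        have h6 := (Pool.Agent.Q45.GM.lf k'[X] hF' f T).T_conj σ x
        rwa [hcj] at h6
      have h8 : ∀ ρ : Sep F ≃ₐ[F] Sep F, ρ = σ' →
          jm 2 f (ak T) (c n ρ) = jm 2 f (ak T) (c n σ') := by
        rintro ρ rfl
        rfl
      exact h8 _ h5
    have h7 := (h c _ ⟨ofTC hc, hcs⟩ hd).2
    rw [← h7]
    exact (rho_cls k'[X] hF' f T hc hcs hd).2
  · rintro rfl c d hc hd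
    obtain ⟨⟨h4, h5⟩, h6⟩ := rho_cls k'[X] hF' f T (toTC hc.1) hc.2 hd
    exact ⟨⟨ofTC h4, h5⟩, h6⟩

end acts

section pair

variable {k k' : Type} [Field k] [Field k'] [Algebra k k'] {P : k[X][X]} {G : k[X]}

theorem IsPair.dm (h : IsPair k' P G) : Dm k' P G where
  two := h.curve.two
  monic := h.curve.monic
  odd := h.curve.odd
  three := by have := h.curve.three_le; omega
  der := h.curve.deriv_ne
  smooth := h.curve.smooth
  sep := h.separable
  br := by
    obtain ⟨φ⟩ := h.curve.line
    exact isBr_of_line φ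
  unr := unr_of_coprime h.curve.monic (by have := h.curve.three_le; omega) h.coprime

section mod

variable {K F : Type} [Field K] [Algebra k[X] K] [Field F] [Algebra k'[X] F] [IsFractionRing k'[X] F]
  [Algebra K F]

theorem isModule_of {D : SelT (F := F) 2 k'[X] (fPoly P G K) 2} (h : PtClass P G D) :
    IsModule k'[X] P G (clsOf k'[X] (fPoly P G K)) D := by
  obtain ⟨P₀, R, h1, h2, h3, h4, h5, h6⟩ := h
  exact ⟨classMap, P₀, h1, cD (fPoly P G K) R, ⟨ofTC h4, h5⟩, h6.symm, fun n =>
    ⟨R n, (halves R h3 n).trans h2, fun σ => rfl⟩⟩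

end mod

variable {K F : Type} [Field K] [Algebra k[X] K] [IsFractionRing k[X] K] [Field F]
  [Algebra k'[X] F] [IsFractionRing k'[X] F] [Algebra K F] [IsSepClosed k'] [Algebra.IsSeparable k k']

/-- The reduction modulo `2` of the module of the classes. -/
theorem core (hP : IsPair k' P G) (hcomp : ∀ p : k[X], algebraMap K F (algebraMap k[X] K p) =
      algebraMap k'[X] F (p.map (algebraMap k k'))) (hF : Pool.Agent.Q45.TW.IsGeom k k' K F) :
    ∃ (_ : Module.Finite ℤ_[2] (SelT (F := F) 2 k'[X] (fPoly P G K) 2))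
      (_ : Module.Free ℤ_[2] (SelT (F := F) 2 k'[X] (fPoly P G K) 2))
      (κ : SelT (F := F) 2 k'[X] (fPoly P G K) 2 →+ ((valueAt P G).rootSet k' → ZMod 2))
      (D : SelT (F := F) 2 k'[X] (fPoly P G K) 2), Red κ D ∧ PtClass P G D ∧
      (∀ T, rho k'[X] hF (fPoly P G K) T D = D) ∧
      ∀ (T : Sep F ≃ₐ[K] Sep F) (τ : k' ≃ₐ[k] k'), (∀ x, T (cs k' F x) = cs k' F (τ x)) →
        ∀ π : Equiv.Perm ((valueAt P G).rootSet k'),
          (∀ r, ((π r : (valueAt P G).rootSet k') : k') = τ r) →
          Thr κ (rho k'[X] hF (fPoly P G K) T) π := em_core hP.dm hcomp hF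

end pair

/-- The form as a bilinear map. -/
theorem exists_form {G V : Type} [Group G] [AddCommGroup V] [Module ℤ_[2] V]
    {A : G → (V →ₗ[ℤ_[2]] V) → Prop} {β : V → V → ℤ_[2]} (h : IsInvariantForm A β) :
    ∃ β' : V →ₗ[ℤ_[2]] V →ₗ[ℤ_[2]] ℤ_[2], ∀ x y, β' x y = β x y :=
  ⟨LinearMap.mk₂ ℤ_[2] β h.add h.smul (fun x y z => by rw [h.symm, h.add, h.symm y, h.symm z])
    (fun c x y => by rw [h.symm, h.smul, h.symm y]; rfl), fun x y => rfl⟩

/-- The rank and the irreducibility, for one abstract module. -/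
theorem irr_one {g R M : Type} [Group g] [Fintype R] [AddCommGroup M] [Module ℤ_[2] M]
    [Module.Free ℤ_[2] M] [Module.Finite ℤ_[2] M] (κ : M →+ (R → ZMod 2)) (D : M)
    (ρ : g →* Module.End ℤ_[2] M) (π : g →* Equiv.Perm R)
    (hred : Red κ D) (hD : ∀ g, ρ g D = D)
    (hthr : ∀ g, Thr κ (ρ g) (π g)) (hodd : Odd (Fintype.card R))
    (hfull : Function.Surjective π) {d : ℕ} (hd : Fintype.card R = d)
    (act : g → (Quot D →ₗ[ℤ_[2]] Quot D) → Prop)
    (hiff : ∀ σ ψ, act σ ψ ↔ ψ = quoRep ρ hD σ) :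
    Module.Free ℤ_[2] (Quot D) ∧ (Module.finrank ℤ_[2] (Quot D) = 0 ∨
      Module.finrank ℤ_[2] (Quot D) = d - 1) ∧
    (∀ σ : g, ∃ ψ, act σ ψ) ∧ IsIrreducible act := by
  haveI : Nonempty R := Fintype.card_pos_iff.1 hodd.pos
  have hirr := opn_irr κ D ρ π hred hD hthr hodd hfull
  refine ⟨Pool.Agent.Q237.EM.QCH.free_quot hred, ?_,
    fun σ => ⟨_, (hiff σ _).2 rfl⟩, fun U hU => hirr.2 U fun σ v hv =>
      hU σ _ ((hiff σ _).2 rfl) v hv⟩
  have h1 := hirr.1
  rw [hd] at h1
  exact h1

section one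

variable {k k' K F : Type} [Field k] [Field k'] [Algebra k k'] [IsSepClosed k']
  [Algebra.IsSeparable k k'] [Field K] [Algebra k[X] K] [Field F] [Algebra k'[X] F]
  [IsFractionRing k'[X] F] [Algebra K F] (hF' : Pool.Agent.Q45.TW.IsGeom k k' K F) (f : K[X])

/-- The representation of `Gal(k' / k)`. -/
noncomputable def galRep (ext : (k' ≃ₐ[k] k') → (Sep F ≃ₐ[K] Sep F))
    (hext : ∀ σ x, ext σ (cs k' F x) = cs k' F (σ x)) :
    (k' ≃ₐ[k] k') →* Module.End ℤ_[2] (SelT (F := F) 2 k'[X] f 2) where
  toFun σ := rho k'[X] hF' f (ext σ)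
  map_one' := LinearMap.ext fun m => by
    rw [rho_congr k'[X] hF' f (ext 1) 1 (fun x => by rw [hext]; rfl) m]
    exact rho_one k'[X] hF' f m
  map_mul' σ τ := LinearMap.ext fun m => by
    show rho k'[X] hF' f (ext (σ * τ)) m = rho k'[X] hF' f (ext σ) (rho k'[X] hF' f (ext τ) m)
    rw [← rho_mul]
    refine rho_congr k'[X] hF' f (ext (σ * τ)) (ext σ * ext τ) (fun x => ?_) m
    have h1 : (ext σ * ext τ) (cs k' F x) = ext σ (ext τ (cs k' F x)) := rfl
    rw [h1, hext, hext, hext]
    rfl

theorem acts_quo (ext : (k' ≃ₐ[k] k') → (Sep F ≃ₐ[K] Sep F))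
    (hext : ∀ σ x, ext σ (cs k' F x) = cs k' F (σ x)) {D : SelT (F := F) 2 k'[X] f 2}
    (hD : ∀ σ, galRep hF' f ext hext σ D = D) (σ : k' ≃ₐ[k] k') (ψ : Quot D →ₗ[ℤ_[2]] Quot D) :
    ActsAs k'[X] f (clsOf k'[X] f) D σ ψ ↔ ψ = quoRep (galRep hF' f ext hext) hD σ := by
  constructor
  · rintro ⟨T, φ, hT, hind, hφ⟩
    rw [(induced_iff hF' f T φ).1 hind] at hφ
    refine LinearMap.ext fun x => ?_
    obtain ⟨m, rfl⟩ := Submodule.Quotient.mk_surjective _ x
    rw [hφ, quoRep_mk]
    have h1 : rho k'[X] hF' f T m = galRep hF' f ext hext σ m :=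
      rho_congr k'[X] hF' f T (ext σ) (fun x => by
        rw [hext]
        exact hT x) m
    rw [h1]
  · rintro rfl
    exact ⟨ext σ, galRep hF' f ext hext σ, hext σ, (induced_iff hF' f (ext σ) _).2 rfl, fun m => rfl⟩

end one

/-- The theorem for all primes, for an abstract module. -/
theorem noTate_of {g R M : Type} [Group g] [Fintype R] [AddCommGroup M] [Module ℤ_[2] M]
    [Module.Free ℤ_[2] M] [Module.Finite ℤ_[2] M] (κ : M →+ (R → ZMod 2)) (D : M)
    (ρ : g →* Module.End ℤ_[2] M) (π : g →* Equiv.Perm R) (hred : Red κ D) (hD : ∀ g, ρ g D = D)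
    (hthr : ∀ g, Thr κ (ρ g) (π g)) (hodd : Odd (Fintype.card R)) (h5 : 5 ≤ Fintype.card R)
    (hfull : Function.Surjective π) (act : g → (Quot D →ₗ[ℤ_[2]] Quot D) → Prop)
    (hiff : ∀ σ ψ, act σ ψ ↔ ψ = quoRep ρ hD σ) [Module.Free ℤ_[2] (Quot D)]
    (β : Quot D → Quot D → ℤ_[2]) (hβ : IsInvariantForm act β) (hinf : HasInfiniteImage act) :
    NoTateClasses act := by
  obtain ⟨β', hβ'⟩ := exists_form hβ
  have hsym : ∀ x y, β' x y = β' y x := fun x y => by rw [hβ', hβ', hβ.symm]
  have hinv : ∀ σ x y, β' (quoRep ρ hD σ x) (quoRep ρ hD σ y) = β' x y :=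
    fun σ x y => by
      rw [hβ', hβ']
      exact hβ.inv σ _ ((hiff σ _).2 rfl) x y
  have hirr := opn_irr κ D ρ π hred hD hthr hodd hfull
  have hnd : ∀ (x : Quot D), (∀ y, β' x y = 0) → x = 0 := by
    let U : Submodule ℤ_[2] (Quot D) := LinearMap.ker β'
    have hU : ∀ x, x ∈ U ↔ ∀ y, β' x y = 0 := fun x => by
      rw [LinearMap.mem_ker, LinearMap.ext_iff]
      rfl
    have hst : ∀ g, ∀ v ∈ U, quoRep ρ hD g v ∈ U := by
      intro g v hv
      rw [hU] at hv ⊢
      intro y
      have h1 : quoRep ρ hD g (quoRep ρ hD g⁻¹ y) = y := by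
        rw [← Module.End.mul_apply, ← map_mul, mul_inv_cancel, map_one]
        rfl
      rw [← h1, hinv]
      exact hv _
    rcases hirr.2 U hst with h1 | ⟨r, h1⟩
    · intro x hx
      have h2 : x ∈ U := (hU x).2 hx
      rw [h1] at h2
      exact (Submodule.mem_bot _).1 h2
    · exfalso
      obtain ⟨x, y, hxy⟩ := hβ.ne
      have h2 := (hU _).1 (h1 x) y
      rw [map_smul, LinearMap.smul_apply, smul_eq_mul, hβ'] at h2
      exact hxy ((mul_eq_zero.1 h2).resolve_left (Pool.Agent.Q45.RD.two_pow_ne r))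
  have heven : Even (Module.finrank ℤ_[2] (Quot D)) := by
    rcases hirr.1 with h1 | h1
    · exact ⟨0, h1⟩
    · obtain ⟨b, hb⟩ := hodd
      exact ⟨b, by rw [show Module.finrank ℤ_[2] (Quot D) = Fintype.card R - 1 from h1]; omega⟩
  obtain ⟨π3, h31, r3, hr3⟩ := exists_three (R := R) (by omega)
  obtain ⟨g3, hg3⟩ := hfull π3
  obtain ⟨j, hj⟩ := opn_joint (ι := Unit) (N := ℤ_[2]) (fun _ => κ) (fun _ => D) (fun _ => ρ)
    (fun _ => π) (1 : g →* Module.End ℤ_[2] ℤ_[2]) (fun _ => hred) (fun _ => hD) (fun _ => hthr)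
    (fun _ => hodd) (fun _ => h5) (fun _ => hfull) (fun _ => ⟨g3, by
      rw [hg3]
      refine Equiv.ext fun r => ?_
      exact h31 r, by
      rw [hg3]
      intro h
      exact hr3 (congrArg (fun e : Equiv.Perm R => e r3) h), fun j hj => absurd (Subsingleton.elim j _) hj,
      fun y => ⟨0, by
        rw [smul_zero]
        exact sub_self y⟩⟩) (fun _ => β') (fun _ h0 => by
      obtain ⟨x, y, hxy⟩ := hβ.ne
      apply hxy
      rw [← hβ', h0]
      rfl) (fun _ => hsym) (fun _ => hinv) (fun _ => by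
      obtain ⟨σ, φ, hφ, h4, m, hm⟩ := hinf
      rw [(hiff σ φ).1 hφ] at h4 hm
      refine ⟨σ, h4, fun h5 => hm ?_⟩
      rw [h5]
      rfl) Pool.Agent.Q45.OI.Chain.top
  obtain ⟨α, hα, hα1, r', hr⟩ := Pool.Agent.Q45.RD.exists_good (ι := Unit) (fun _ => β')
    (fun _ => hsym) (fun _ => hnd) (fun _ => heven) j
  obtain ⟨σ, -, h6, h7⟩ := hj α hα hα1 r'
  intro l hl S W _ _ _ ω hS hcomp Δ hΔ w hw
  obtain ⟨τ, hτS, hτ⟩ := hS σ r'
  have h8 := hr ℤ_[2] (fun _ => quoRep ρ hD τ) 1 1 (fun y => rfl) (fun y => rfl) (fun _ v => by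
      obtain ⟨a, ha⟩ := hτ _ _ ((hiff σ _).2 rfl) ((hiff τ _).2 rfl) v
      obtain ⟨b, hb⟩ := h6 () v
      exact ⟨a + b, by rw [smul_add, ← ha, ← hb]; abel⟩) (fun y => ⟨0, by
        rw [smul_zero]
        exact sub_self y⟩)
  obtain ⟨m, hm, -, hmΔ⟩ := Subgroup.exists_pow_mem_of_index_ne_zero hΔ.index_ne_zero τ
  obtain ⟨p, hp, hp'⟩ := hcomp τ hτS m _ ((hiff (τ ^ m) _).2 rfl)
  refine Pool.Agent.Q45.AP.fixed_zero (quoRep ρ hD (τ ^ m)) ?_ (ω (τ ^ m)) hp hp' w (hw _ hmΔ)
  intro Ψ hΨ
  let e := MultilinearMap.ofSubsingleton ℤ_[2] (Quot D) ℤ_[2] (0 : Fin 1)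
  have h9 := h8 1 (fun _ => ()) one_pos (fun a b _ => Subsingleton.elim a b) m hm (e Ψ) (fun x => by
    have h10 := hΨ (x 0)
    rw [map_pow] at h10
    rw [one_pow]
    exact h10)
  refine LinearMap.ext fun y => ?_
  exact congrArg (fun Θ : MultilinearMap ℤ_[2] (fun _ : Fin 1 => Quot D) ℤ_[2] => Θ fun _ => y) h9

theorem criterion : Criterion := by
  intro k k' K F _ _ _ hk' _ _ _ _ _ _ _ P G hcomp hG
  haveI : IsSepClosed k' := hk'.sep_closed
  haveI : Algebra.IsSeparable k k' := hk'.separable
  have hF' := isGeom_rat (K := K) (F := F) hcomp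
  have hP := hG.pair
  obtain ⟨i1, i2, κ, D, hred, hpt, hD, hact⟩ := core (K := K) (F := F) hP hcomp hF'
  -- the extension of the automorphisms
  choose ext hext using fun σ : k' ≃ₐ[k] k' =>
    Pool.Agent.Q45.OI.exists_ext (K := K) (F := F) hcomp σ
  have hrD : ∀ σ, galRep hF' (fPoly P G K) ext hext σ D = D := fun σ => hD (ext σ)
  have hthr : ∀ σ, Thr κ (galRep hF' (fPoly P G K) ext hext σ) (permRoots (valueAt P G) σ) :=
    fun σ => hact (ext σ) σ (hext σ) _ fun r => rfl
  have hcard : Fintype.card ((valueAt P G).rootSet k') = (valueAt P G).natDegree :=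
    card_rootSet_eq_natDegree hP.separable (IsSepClosed.splits_codomain _ hP.separable)
  have hodd : Odd (Fintype.card ((valueAt P G).rootSet k')) := by
    rw [hcard]
    exact hG.odd
  have hfull : Function.Surjective (permRoots (k := k) (k' := k') (valueAt P G)) := by
    intro π
    obtain ⟨σ, hσ⟩ := hG.full π
    exact ⟨σ, Equiv.ext fun x => Subtype.ext (hσ x)⟩
  have hiff := acts_quo hF' (fPoly P G K) ext hext hrD
  have hX := irr_one κ D (galRep hF' (fPoly P G K) ext hext)
    (permRoots (valueAt P G)) hred hrD hthr hodd hfull hcard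
    (ActsAs k'[X] (fPoly P G K) (clsOf k'[X] (fPoly P G K)) D) hiff
  haveI := hX.1
  refine ⟨SelT (F := F) 2 k'[X] (fPoly P G K) 2, inferInstance, inferInstance, i1, i2,
    clsOf k'[X] (fPoly P G K), D, hX.1, isModule_of hpt, hX.2.1, hX.2.2.1, hX.2.2.2, ?_⟩
  intro β hβ hinf
  exact noTate_of κ D (galRep hF' (fPoly P G K) ext hext) (permRoots (valueAt P G)) hred hrD hthr
    hodd (hcard.ge.trans' hG.five_le) hfull
    (ActsAs k'[X] (fPoly P G K) (clsOf k'[X] (fPoly P G K)) D) hiff β hβ hinf

theorem almostAll : AlmostAllSections := by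
  intro k k' _ _ _ _ hk' P G hC hodd h3 hdeg
  haveI : IsSepClosed k' := hk'.sep_closed
  haveI : Algebra.IsSeparable k k' := hk'.separable
  have hn1 : 1 < P.natDegree := by have := hC.three_le; omega
  obtain ⟨φ⟩ := hC.line
  have hgi : ∀ (k'' : Type) [Field k''] [Algebra k k''],
      Irreducible (P.map (mapRingHom (algebraMap k k''))) := fun k'' _ _ =>
    irr_ext (k' := k') hC.monic (by omega) φ
  have hirr : Irreducible P := by
    have h1 := hgi k
    have h3 : mapRingHom (algebraMap k k) = RingHom.id k[X] := by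
      rw [Algebra.algebraMap_self, mapRingHom_id]
    rwa [h3, Polynomial.map_id] at h1
  let E : IntermediateField k k' := ⊥
  obtain ⟨u, hu, hmd, hud⟩ := Pool.Agent.Q45.NE.ud_sec hC.monic hirr hn1 hgi (by omega) hdeg
  have hud2 := ud_ext (k' := k') hC.monic hn1 ⟨φ⟩ hC.smooth (by omega) hdeg E
  have key := Pool.Agent.Q45.HI.tendsto_of_ud (ι := Fin 2)
    (S := {v : Fin 2 → ℤ | ¬ IsGeneric k' P (section2 G v)}) (fun ε hε => by
      refine Pool.Agent.Y706.UD_mono ?_ (Pool.Agent.Q45.HI.ud_union hud hud2 ε hε)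
      intro v hv
      by_contra hcon
      rw [Set.mem_union, not_or] at hcon
      obtain ⟨h1, h2⟩ := hcon
      simp only [Set.mem_setOf_eq, not_not] at h1 h2
      apply hv
      have h4 : section2 G v = Pool.Agent.Q45.NE.sec G v := rfl
      have h5 : valueAt P (section2 G v) = Pool.Agent.Q45.NE.eG P (Pool.Agent.Q45.NE.sec G v) := rfl
      obtain ⟨h6, -, h7⟩ := h1
      have h8 := (hmd v).2
      rw [natDegree_C_mul hu] at h8
      have hun : IsUnit (C u : k[X]) := (isUnit_iff_ne_zero.2 hu).map C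
      have hir : Irreducible (Pool.Agent.Q45.NE.eG P (Pool.Agent.Q45.NE.sec G v)) :=
        (irreducible_isUnit_mul hun).1 h6
      refine ⟨⟨hC, ?_, ?_⟩, ?_, ?_, ?_⟩
      · rw [h5]
        exact h2.1
      · rw [h5]
        exact (hir.coprime_iff_not_dvd).2 h7
      · rw [h5, h8]
        exact hC.odd.mul hodd
      · rw [h5, h8]
        calc 5 ≤ 3 * 3 := by norm_num
          _ ≤ P.natDegree * G.natDegree := Nat.mul_le_mul hC.three_le h3
      · intro π
        obtain ⟨σ, -, hσ⟩ := h2.2 π
        exact ⟨σ, hσ⟩)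
  refine key.congr fun H => ?_
  rw [Fintype.card_fin]
  rfl

theorem lines : Lines := by
  intro k k' _ _ _ _ a ha hodd h3
  have hpos : 0 < a.natDegree := by omega
  have hgs : a.map C + C X = Pool.Agent.Q45.TG.gs a := rfl
  have hdeg := Pool.Agent.Q45.TG.gs_natDegree ha hpos
  have hder : derivative a ≠ 0 := by
    intro h1
    have h2 := natDegree_eq_zero_of_derivative_eq_zero h1
    omega
  refine ⟨⟨two_ne_zero, ?_, ?_, ?_, ?_, ?_, ?_⟩, ?_⟩
  · rw [hgs]
    exact Pool.Agent.Q45.TG.gs_monic ha hpos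
  · rw [hgs, hdeg]
    exact hodd
  · rw [hgs, hdeg]
    exact h3
  · rw [hgs]
    exact Pool.Agent.Q45.TG.gs_der hder
  · rw [hgs]
    exact Pool.Agent.Q45.TG.gs_smooth a
  · have h1 : extendPoly k' (a.map C + C X) = (a.map (algebraMap k k')).map C + C X := by
      unfold extendPoly
      rw [Polynomial.map_add, map_C, coe_mapRingHom, map_X, Polynomial.map_map, Polynomial.map_map]
      congr 2
      refine RingHom.ext fun c => ?_
      show (C c : k[X]).map (algebraMap k k') = C (algebraMap k k' c)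
      rw [map_C]
    unfold IsAffineLine
    rw [h1]
    exact line_gs _
  · intro G hG i hi
    rw [hgs] at hi ⊢
    rw [hdeg] at hi ⊢
    have h1 : ((Pool.Agent.Q45.TG.gs a).coeff i).natDegree ≤ 1 := by
      rw [← hgs, coeff_add, coeff_map, coeff_C]
      refine (natDegree_add_le _ _).trans (max_le ?_ ?_)
      · rw [natDegree_C]
        exact Nat.zero_le _
      · split_ifs
        · exact natDegree_X_le
        · rw [natDegree_zero]
          exact Nat.zero_le _
    rcases Nat.eq_zero_or_pos i with h0 | h0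
    · rw [h0, Nat.sub_zero]
      have h2 : 3 * 1 ≤ a.natDegree * G.natDegree := Nat.mul_le_mul h3 hG
      rw [h0] at h1
      omega
    · have h2 : (Pool.Agent.Q45.TG.gs a).coeff i = C (a.coeff i) := by
        rw [← hgs, coeff_add, coeff_map, coeff_C, if_neg h0.ne', add_zero]
      rw [h2, natDegree_C]
      exact Nat.mul_pos (by omega) hG

/-- **The Tate conjecture for divisors at every prime, for almost all the sections.** -/
theorem result : Criterion ∧ AlmostAllSections ∧ Lines := ⟨criterion, almostAll, lines⟩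

end Pool.Agent.Results.MP_89bcae_ag.EveryPrimeSections
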